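import Mathlib

set_option autoImplicit false

/-!
Locally indicable groups are Conrad right-orderable (compactness argument).
-/

namespace Pool.Agent.BB0160

open Filter

/-- Every finitely generated nontrivial subgroup has a nontrivial homomorphism to the integers. -/
def LocInd (G : Type*) [Group G] : Prop :=
  ∀ F : Finset G, (∃ g ∈ F, g ≠ 1) →
    ∃ φ : Subgroup.closure (F : Set G) →* Multiplicative ℤ, φ ≠ 1

/-- Partial Conrad cones, total on a given set. -/
structure PCone {G : Type*} [Group G] (F : Set G) (P : Set G) : Prop where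
  one : (1 : G) ∉ P
  mul : ∀ a b, a ∈ P → b ∈ P → a * b ∈ P
  con : ∀ a b, a ∈ P → b ∈ P → a ^ 2 * b * a⁻¹ ∈ P
  tri : ∀ a ∈ F, a ∈ P ∨ a = 1 ∨ a⁻¹ ∈ P

open Classical in
theorem exists_pcone {G : Type*} [Group G] (h : LocInd G) :
    ∀ (n : ℕ) (F : Finset G), (F.filter (fun x => x ≠ 1)).card = n →
      ∃ P : Set G, PCone (F : Set G) P := by
  intro n
  induction n using Nat.strong_induction_on with
  | _ n ih =>
    intro F hF
    by_cases hne : ∃ g ∈ F, g ≠ 1
    · obtain ⟨φ, hφ⟩ := h F hne
      -- some element of F has nonzero image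
      have hex : ∃ x : G, ∃ hx : x ∈ F, φ ⟨x, Subgroup.subset_closure hx⟩ ≠ 1 := by
        by_contra hcon
        push Not at hcon
        apply hφ
        ext ⟨y, hy⟩
        have : ∀ y (hy : y ∈ Subgroup.closure (F : Set G)), φ ⟨y, hy⟩ = 1 := by
          intro y hy
          induction hy using Subgroup.closure_induction with
          | mem x hx => exact hcon x hx
          | one => exact map_one φ
          | mul x y hx hy ihx ihy =>
            have := map_mul φ ⟨x, hx⟩ ⟨y, hy⟩
            rw [ihx, ihy, mul_one] at this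
            exact this
          | inv x hx ihx =>
            have := map_inv φ ⟨x, hx⟩
            rw [ihx, inv_one] at this
            exact this
        rw [this y hy]
        rfl
      obtain ⟨x0, hx0, hx0φ⟩ := hex
      let F' : Finset G := F.filter (fun x => ∃ hx : x ∈ F, φ ⟨x, Subgroup.subset_closure hx⟩ = 1)
      have hlt : (F'.filter (fun x => x ≠ 1)).card < n := by
        rw [← hF]
        apply Finset.card_lt_card
        rw [Finset.ssubset_iff_of_subset]
        · refine ⟨x0, ?_, ?_⟩
          · simp only [Finset.mem_filter]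
            refine ⟨hx0, ?_⟩
            rintro rfl
            exact hx0φ (map_one φ)
          · simp only [F', Finset.mem_filter, not_and]
            rintro ⟨_, hx, hh⟩
            exact absurd hh hx0φ
        · intro y hy
          simp only [F', Finset.mem_filter] at hy ⊢
          exact ⟨hy.1.1, hy.2⟩
      obtain ⟨P', hP'⟩ := ih _ hlt F' rfl
      let v : Subgroup.closure (F : Set G) → ℤ := fun x => Multiplicative.toAdd (φ x)
      have vmul : ∀ x y, v (x * y) = v x + v y := by
        intro x y; simp [v]
      have vinv : ∀ x, v (x⁻¹) = - v x := by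
        intro x; simp [v]
      refine ⟨{x | ∃ hx : x ∈ Subgroup.closure (F : Set G),
        0 < v ⟨x, hx⟩ ∨ (v ⟨x, hx⟩ = 0 ∧ x ∈ P')}, ?_, ?_, ?_, ?_⟩
      · rintro ⟨hx, h1 | h1⟩
        · have : v ⟨1, hx⟩ = 0 := by
            have : (⟨1, hx⟩ : Subgroup.closure (F : Set G)) = 1 := rfl
            rw [this]; simp [v]
          omega
        · exact hP'.one h1.2
      · rintro a b ⟨ha, ha'⟩ ⟨hb, hb'⟩
        refine ⟨mul_mem ha hb, ?_⟩
        have e : v ⟨a * b, mul_mem ha hb⟩ = v ⟨a, ha⟩ + v ⟨b, hb⟩ := vmul ⟨a, ha⟩ ⟨b, hb⟩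
        rw [e]
        rcases ha' with ha' | ha' <;> rcases hb' with hb' | hb'
        · left; omega
        · left; omega
        · left; omega
        · right; exact ⟨by omega, hP'.mul a b ha'.2 hb'.2⟩
      · rintro a b ⟨ha, ha'⟩ ⟨hb, hb'⟩
        have hm : a ^ 2 * b * a⁻¹ ∈ Subgroup.closure (F : Set G) :=
          mul_mem (mul_mem (pow_mem ha 2) hb) (inv_mem ha)
        refine ⟨hm, ?_⟩
        have e : v ⟨a ^ 2 * b * a⁻¹, hm⟩ = v ⟨a, ha⟩ + v ⟨b, hb⟩ := by
          have : (⟨a ^ 2 * b * a⁻¹, hm⟩ : Subgroup.closure (F : Set G)) =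
            ⟨a, ha⟩ * ⟨a, ha⟩ * ⟨b, hb⟩ * (⟨a, ha⟩)⁻¹ := by
            ext; simp [pow_two]
          rw [this, vmul, vmul, vmul, vinv]; ring
        rw [e]
        rcases ha' with ha' | ha' <;> rcases hb' with hb' | hb'
        · left; omega
        · left; omega
        · left; omega
        · right; exact ⟨by omega, hP'.con a b ha'.2 hb'.2⟩
      · intro a ha
        have haF : a ∈ F := ha
        have hac : a ∈ Subgroup.closure (F : Set G) := Subgroup.subset_closure ha
        rcases lt_trichotomy (v ⟨a, hac⟩) 0 with hv | hv | hv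
        · right; right
          refine ⟨inv_mem hac, Or.inl ?_⟩
          have e : v ⟨a⁻¹, inv_mem hac⟩ = - v ⟨a, hac⟩ := vinv ⟨a, hac⟩
          rw [e]; omega
        · have haF' : a ∈ F' := by
            simp only [F', Finset.mem_filter]
            refine ⟨haF, haF, ?_⟩
            have : Multiplicative.toAdd (φ ⟨a, hac⟩) = Multiplicative.toAdd 1 := hv
            exact Multiplicative.toAdd.injective this
          rcases hP'.tri a haF' with h1 | h1 | h1
          · left; exact ⟨hac, Or.inr ⟨hv, h1⟩⟩
          · right; left; exact h1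
          · right; right
            refine ⟨inv_mem hac, Or.inr ⟨?_, h1⟩⟩
            have e : v ⟨a⁻¹, inv_mem hac⟩ = - v ⟨a, hac⟩ := vinv ⟨a, hac⟩
            rw [e]; omega
        · left; exact ⟨hac, Or.inl hv⟩
    · push Not at hne
      refine ⟨∅, ?_, ?_, ?_, ?_⟩
      · simp
      · simp
      · simp
      · intro a ha
        right; left; exact hne a ha

theorem exists_cone {G : Type*} [Group G] (h : LocInd G) :
    ∃ P : Set G, PCone (Set.univ : Set G) P := by
  classical
  choose P hP using fun F : Finset G => exists_pcone h _ F rfl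
  let U : Ultrafilter (Finset G) := Ultrafilter.of atTop
  have hU : (U : Filter (Finset G)) ≤ atTop := Ultrafilter.of_le atTop
  refine ⟨{x | ∀ᶠ F in (U : Filter (Finset G)), x ∈ P F}, ?_, ?_, ?_, ?_⟩
  · intro h1
    obtain ⟨F, hF⟩ := h1.exists
    exact (hP F).one hF
  · intro a b ha hb
    filter_upwards [ha, hb] with F h1 h2
    exact (hP F).mul a b h1 h2
  · intro a b ha hb
    filter_upwards [ha, hb] with F h1 h2
    exact (hP F).con a b h1 h2
  · intro a _
    have h1 : ∀ᶠ F in (U : Filter (Finset G)), a ∈ P F ∨ a = 1 ∨ a⁻¹ ∈ P F := by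
      apply hU
      filter_upwards [eventually_ge_atTop ({a} : Finset G)] with F hF
      exact (hP F).tri a (hF (Finset.mem_singleton_self a))
    rcases Ultrafilter.eventually_or.mp h1 with h2 | h2
    · exact Or.inl h2
    · rcases Ultrafilter.eventually_or.mp h2 with h3 | h3
      · right; left
        exact h3.exists.choose_spec
      · exact Or.inr (Or.inr h3)

/-- Locally indicable groups have a Conrad right order (with the exponent two). -/
theorem conrad_of_locInd {G : Type*} [Group G] (h : LocInd G) :
    ∃ lt : G → G → Prop,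
        (∀ a, ¬ lt a a) ∧
        (∀ a b c, lt a b → lt b c → lt a c) ∧
        (∀ a b, lt a b ∨ a = b ∨ lt b a) ∧
        (∀ a b c, lt a b → lt (a * c) (b * c)) ∧
        (∀ f g, lt 1 f → lt 1 g → ∃ n : ℕ, lt f (f ^ (n + 1) * g)) := by
  obtain ⟨P, hP⟩ := exists_cone h
  refine ⟨fun a b => b * a⁻¹ ∈ P, ?_, ?_, ?_, ?_, ?_⟩
  · intro a ha
    simp only [mul_inv_cancel] at ha
    exact hP.one ha
  · intro a b c hab hbc
    have := hP.mul _ _ hbc hab
    have e : c * b⁻¹ * (b * a⁻¹) = c * a⁻¹ := by group
    simpa [e] using this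
  · intro a b
    rcases hP.tri (b * a⁻¹) (Set.mem_univ _) with h1 | h1 | h1
    · exact Or.inl h1
    · right; left
      exact (mul_inv_eq_one.mp h1).symm
    · right; right
      have e : (b * a⁻¹)⁻¹ = a * b⁻¹ := by group
      simpa [e] using h1
  · intro a b c hab
    have e : b * c * (a * c)⁻¹ = b * a⁻¹ := by group
    simpa [e] using hab
  · intro f g hf hg
    refine ⟨1, ?_⟩
    simp only [inv_one, mul_one] at hf hg
    exact hP.con f g hf hg

end Pool.Agent.BB0160
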