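import Mathlib

set_option autoImplicit false

/-!
Cuts of left orders given by cones.
-/

namespace Pool.Agent.BB0160

open scoped Pointwise

variable {G : Type*} [Group G]

/-- Positive cones of left-invariant total orders. -/
structure LCone (P : Set G) : Prop where
  one : (1 : G) ∉ P
  mul : ∀ a b, a ∈ P → b ∈ P → a * b ∈ P
  tri : ∀ a, a ∈ P ∨ a = 1 ∨ a⁻¹ ∈ P

/-- The left invariant order of a cone. -/
def Lt (P : Set G) (x y : G) : Prop := x⁻¹ * y ∈ P

theorem Lt.left {P : Set G} {x y : G} (c : G) : Lt P (c * x) (c * y) ↔ Lt P x y := by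
  unfold Lt
  have : (c * x)⁻¹ * (c * y) = x⁻¹ * y := by group
  rw [this]

theorem LCone.irrefl {P : Set G} (hP : LCone P) (x : G) : ¬ Lt P x x := by
  unfold Lt
  rw [inv_mul_cancel]
  exact hP.one

theorem LCone.trans {P : Set G} (hP : LCone P) {x y z : G} (h1 : Lt P x y) (h2 : Lt P y z) :
    Lt P x z := by
  unfold Lt at *
  have := hP.mul _ _ h1 h2
  have e : x⁻¹ * y * (y⁻¹ * z) = x⁻¹ * z := by group
  rwa [e] at this

theorem LCone.tri' {P : Set G} (hP : LCone P) (x y : G) : Lt P x y ∨ x = y ∨ Lt P y x := by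
  unfold Lt
  rcases hP.tri (x⁻¹ * y) with h | h | h
  · exact Or.inl h
  · right; left
    have := mul_eq_one_iff_eq_inv.mp h
    simpa using congrArg Inv.inv this
  · right; right
    have e : (x⁻¹ * y)⁻¹ = y⁻¹ * x := by group
    rwa [e] at h

theorem LCone.asymm {P : Set G} (hP : LCone P) {x y : G} (h1 : Lt P x y) : ¬ Lt P y x :=
  fun h2 => hP.irrefl x (hP.trans h1 h2)

/-- Lower sets of a cone. -/
def Low (P : Set G) (z : Set G) : Prop := ∀ x y, Lt P x y → y ∈ z → x ∈ z

/-- Proper nonempty lower sets. -/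
structure Cut (P : Set G) (z : Set G) : Prop where
  ne : ∃ x, x ∈ z
  nu : ∃ x, x ∉ z
  low : Low P z

theorem Low.lt {P : Set G} (hP : LCone P) {z : Set G} (hz : Low P z) {x y : G} (hx : x ∈ z)
    (hy : y ∉ z) : Lt P x y := by
  rcases hP.tri' x y with h | h | h
  · exact h
  · exact absurd (h ▸ hx) hy
  · exact absurd (hz y x h hx) hy

theorem Low.total {P : Set G} (hP : LCone P) {z w : Set G} (hz : Low P z) (hw : Low P w) :
    z ⊆ w ∨ w ⊆ z := by
  by_cases h : z ⊆ w
  · exact Or.inl h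
  · right
    rw [Set.not_subset] at h
    obtain ⟨x, hx, hx'⟩ := h
    intro y hy
    exact hz y x (hw.lt hP hy hx') hx

theorem Low.subset_of_mem {P : Set G} (hP : LCone P) {z w : Set G} (hz : Low P z) (hw : Low P w)
    {x : G} (hx : x ∈ z) (hx' : x ∉ w) : w ⊆ z := fun y hy => hz y x (hw.lt hP hy hx') hx

theorem Low.smul {P : Set G} {z : Set G} (hz : Low P z) (g : G) : Low P (g • z) := by
  intro x y hxy hy
  rw [Set.mem_smul_set_iff_inv_smul_mem, smul_eq_mul] at hy ⊢
  exact hz _ _ ((Lt.left g⁻¹).mpr hxy) hy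

theorem Cut.smul {P : Set G} {z : Set G} (hz : Cut P z) (g : G) : Cut P (g • z) := by
  refine ⟨?_, ?_, hz.low.smul g⟩
  · obtain ⟨x, hx⟩ := hz.ne
    exact ⟨g * x, by rwa [Set.mem_smul_set_iff_inv_smul_mem, smul_eq_mul, inv_mul_cancel_left]⟩
  · obtain ⟨x, hx⟩ := hz.nu
    exact ⟨g * x, by rwa [Set.mem_smul_set_iff_inv_smul_mem, smul_eq_mul, inv_mul_cancel_left]⟩

theorem mem_smul' {z : Set G} {g x : G} : x ∈ g • z ↔ g⁻¹ * x ∈ z := by
  rw [Set.mem_smul_set_iff_inv_smul_mem, smul_eq_mul]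

theorem Low.iUnion {P : Set G} {ι : Type*} {z : ι → Set G} (h : ∀ i, Low P (z i)) :
    Low P (⋃ i, z i) := by
  intro x y hxy hy
  rw [Set.mem_iUnion] at hy ⊢
  obtain ⟨i, hi⟩ := hy
  exact ⟨i, h i x y hxy hi⟩

theorem Low.iInter {P : Set G} {ι : Type*} {z : ι → Set G} (h : ∀ i, Low P (z i)) :
    Low P (⋂ i, z i) := by
  intro x y hxy hy
  rw [Set.mem_iInter] at hy ⊢
  intro i
  exact h i x y hxy (hy i)

/-- Windows: `[x, bx)` contains the disjoint intervals `f[x, bx)`, `g[x, bx)`. -/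
def Window (P : Set G) (f g b x : G) : Prop :=
  Lt P x (f * x) ∧ Lt P (f * b * x) (g * x) ∧ Lt P (g * b * x) (b * x)

/-- The cut is in some window. -/
def InWindow (P : Set G) (z : Set G) : Prop :=
  ∃ f g b x, Window P f g b x ∧ x ∈ z ∧ b * x ∉ z

theorem InWindow.smul {P : Set G} {z : Set G} (h : InWindow P z) (c : G) :
    InWindow P (c • z) := by
  obtain ⟨f, g, b, x, ⟨h1, h2, h3⟩, hx, hb⟩ := h
  refine ⟨c * f * c⁻¹, c * g * c⁻¹, c * b * c⁻¹, c * x, ⟨?_, ?_, ?_⟩, ?_, ?_⟩
  · have e : c * f * c⁻¹ * (c * x) = c * (f * x) := by group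
    rw [e]; exact (Lt.left c).mpr h1
  · have e : c * f * c⁻¹ * (c * b * c⁻¹) * (c * x) = c * (f * b * x) := by group
    have e' : c * g * c⁻¹ * (c * x) = c * (g * x) := by group
    rw [e, e']; exact (Lt.left c).mpr h2
  · have e : c * g * c⁻¹ * (c * b * c⁻¹) * (c * x) = c * (g * b * x) := by group
    have e' : c * b * c⁻¹ * (c * x) = c * (b * x) := by group
    rw [e, e']; exact (Lt.left c).mpr h3
  · rw [mem_smul', inv_mul_cancel_left]; exact hx
  · rw [mem_smul']
    have e' : c⁻¹ * (c * b * c⁻¹ * (c * x)) = b * x := by group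
    rw [e']; exact hb

theorem inWindow_smul_iff {P : Set G} {z : Set G} (c : G) :
    InWindow P (c • z) ↔ InWindow P z := by
  constructor
  · intro h
    have := h.smul c⁻¹
    rwa [inv_smul_smul] at this
  · exact fun h => h.smul c

/-- Reversal of the order. -/
theorem LCone.inv {P : Set G} (hP : LCone P) : LCone P⁻¹ := by
  refine ⟨?_, ?_, ?_⟩
  · rw [Set.mem_inv, inv_one]; exact hP.one
  · intro a b ha hb
    rw [Set.mem_inv] at *
    rw [mul_inv_rev]
    exact hP.mul _ _ hb ha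
  · intro a
    rw [Set.mem_inv, Set.mem_inv, inv_inv]
    rcases hP.tri a with h | h | h
    · exact Or.inr (Or.inr h)
    · exact Or.inr (Or.inl h)
    · exact Or.inl h

theorem Lt.inv_iff {P : Set G} {x y : G} : Lt P⁻¹ x y ↔ Lt P y x := by
  unfold Lt
  rw [Set.mem_inv]
  have e : (x⁻¹ * y)⁻¹ = y⁻¹ * x := by group
  rw [e]

theorem Low.compl {P : Set G} {z : Set G} (hz : Low P z) : Low P⁻¹ zᶜ := by
  intro x y hxy hy hx
  rw [Lt.inv_iff] at hxy
  exact hy (hz y x hxy hx)

theorem Cut.compl {P : Set G} {z : Set G} (hz : Cut P z) : Cut P⁻¹ zᶜ := by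
  refine ⟨?_, ?_, hz.low.compl⟩
  · obtain ⟨x, hx⟩ := hz.nu
    exact ⟨x, hx⟩
  · obtain ⟨x, hx⟩ := hz.ne
    exact ⟨x, fun h => h hx⟩

theorem Window.rev {P : Set G} {f g b x : G} (h : Window P f g b x) :
    Window P⁻¹ g f b⁻¹ (b * x) := by
  obtain ⟨h1, h2, h3⟩ := h
  refine ⟨?_, ?_, ?_⟩
  · rw [Lt.inv_iff, ← mul_assoc]; exact h3
  · rw [Lt.inv_iff]
    have e : g * b⁻¹ * (b * x) = g * x := by group
    rw [e, ← mul_assoc]; exact h2
  · rw [Lt.inv_iff]
    have e : f * b⁻¹ * (b * x) = f * x := by group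
    have e' : b⁻¹ * (b * x) = x := by group
    rw [e, e']; exact h1

theorem InWindow.rev {P : Set G} {z : Set G} (h : InWindow P z) : InWindow P⁻¹ zᶜ := by
  obtain ⟨f, g, b, x, hw, hx, hb⟩ := h
  refine ⟨g, f, b⁻¹, b * x, hw.rev, hb, ?_⟩
  rw [inv_mul_cancel_left]
  exact fun h => h hx

theorem inWindow_rev_iff {P : Set G} {z : Set G} : InWindow P⁻¹ zᶜ ↔ InWindow P z := by
  constructor
  · intro h
    have := h.rev
    rwa [inv_inv, compl_compl] at this
  · exact fun h => h.rev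

/-! ### hulls of cyclic groups -/

/-- Upper end of the hull of the orbit of `w` under the powers of `a`. -/
def hi (a : G) (w : Set G) : Set G := ⋃ n : ℤ, a ^ n • w

/-- Lower end of the hull. -/
def lo (a : G) (w : Set G) : Set G := ⋂ n : ℤ, a ^ n • w

theorem subset_hi (a : G) (w : Set G) (n : ℤ) : a ^ n • w ⊆ hi a w :=
  Set.subset_iUnion (fun n : ℤ => a ^ n • w) n

theorem lo_subset (a : G) (w : Set G) (n : ℤ) : lo a w ⊆ a ^ n • w :=
  Set.iInter_subset (fun n : ℤ => a ^ n • w) n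

theorem self_subset_hi (a : G) (w : Set G) : w ⊆ hi a w := by
  simpa using subset_hi a w 0

theorem lo_subset_self (a : G) (w : Set G) : lo a w ⊆ w := by
  simpa using lo_subset a w 0

theorem hi_inv (a : G) (w : Set G) : hi a⁻¹ w = hi a w := by
  apply Set.Subset.antisymm
  · apply Set.iUnion_subset
    intro n
    rw [inv_zpow', ]
    exact subset_hi a w (-n)
  · apply Set.iUnion_subset
    intro n
    have := subset_hi a⁻¹ w (-n)
    rwa [inv_zpow', neg_neg] at this

theorem lo_inv (a : G) (w : Set G) : lo a⁻¹ w = lo a w := by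
  apply Set.Subset.antisymm
  · apply Set.subset_iInter
    intro n
    have := lo_subset a⁻¹ w (-n)
    rwa [inv_zpow', neg_neg] at this
  · apply Set.subset_iInter
    intro n
    rw [inv_zpow', ]
    exact lo_subset a w (-n)

theorem hi_smul (a : G) (w : Set G) (m : ℤ) : hi a (a ^ m • w) = hi a w := by
  apply Set.Subset.antisymm
  · apply Set.iUnion_subset
    intro n
    rw [smul_smul, ← zpow_add]
    exact subset_hi a w _
  · apply Set.iUnion_subset
    intro n
    have := subset_hi a (a ^ m • w) (n - m)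
    rwa [smul_smul, ← zpow_add, sub_add_cancel] at this

theorem lo_smul (a : G) (w : Set G) (m : ℤ) : lo a (a ^ m • w) = lo a w := by
  apply Set.Subset.antisymm
  · apply Set.subset_iInter
    intro n
    have := lo_subset a (a ^ m • w) (n - m)
    rwa [smul_smul, ← zpow_add, sub_add_cancel] at this
  · apply Set.subset_iInter
    intro n
    rw [smul_smul, ← zpow_add]
    exact lo_subset a w _

theorem smul_hi (a : G) (w : Set G) (m : ℤ) : a ^ m • hi a w = hi a w := by
  ext x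
  simp only [hi, mem_smul', Set.mem_iUnion]
  constructor
  · rintro ⟨n, hn⟩
    refine ⟨m + n, ?_⟩
    rw [zpow_add]
    simpa [mul_assoc] using hn
  · rintro ⟨n, hn⟩
    refine ⟨n - m, ?_⟩
    have e : (a ^ (n - m))⁻¹ * ((a ^ m)⁻¹ * x) = (a ^ n)⁻¹ * x := by
      rw [← mul_assoc, ← mul_inv_rev, ← zpow_add]; congr 3; ring
    rwa [e]

theorem hi_conj (a c : G) (w : Set G) : c • hi a w = hi (c * a * c⁻¹) (c • w) := by
  ext x
  simp only [hi, mem_smul', Set.mem_iUnion, conj_zpow]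
  refine exists_congr fun n => ?_
  have e : c⁻¹ * ((c * a ^ n * c⁻¹)⁻¹ * x) = (a ^ n)⁻¹ * (c⁻¹ * x) := by group
  rw [e]

theorem Low.hi {P : Set G} {w : Set G} (hw : Low P w) (a : G) : Low P (hi a w) :=
  Low.iUnion fun n => hw.smul (a ^ n)

theorem Low.lo {P : Set G} {w : Set G} (hw : Low P w) (a : G) : Low P (lo a w) :=
  Low.iInter fun n => hw.smul (a ^ n)

theorem hi_compl (a : G) (w : Set G) : BB0160.hi a wᶜ = (BB0160.lo a w)ᶜ := by
  simp only [BB0160.hi, BB0160.lo, Set.compl_iInter, Set.smul_set_compl]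

theorem lo_compl (a : G) (w : Set G) : BB0160.lo a wᶜ = (BB0160.hi a w)ᶜ := by
  simp only [BB0160.hi, BB0160.lo, Set.compl_iUnion, Set.smul_set_compl]

/-- monotonicity of powers -/
theorem pow_mono {w : Set G} {a : G} (h : w ⊆ a • w) {m n : ℤ} (hmn : m ≤ n) :
    a ^ m • w ⊆ a ^ n • w := by
  obtain ⟨k, rfl⟩ := Int.le.dest hmn
  clear hmn
  induction k with
  | zero => simp
  | succ k ih =>
    refine ih.trans ?_
    have : a ^ (m + (k : ℤ)) • w ⊆ a ^ (m + (k : ℤ)) • (a • w) := Set.smul_set_mono h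
    rw [smul_smul, ← zpow_add_one] at this
    have e : m + ((k + 1 : ℕ) : ℤ) = m + (k : ℤ) + 1 := by push_cast; ring
    rw [e]
    exact this

end Pool.Agent.BB0160
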