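import Mathlib

set_option autoImplicit false

/-!
Spectral gap for window systems: words which separate finite sets.
-/

namespace Pool.Agent.BB0160

variable {G X : Type*} [Group G] [MulAction G X]

/-- A window system on a `G`-set. -/
structure WinSys (G X J : Type*) [Group G] [MulAction G X] where
  T : J → Set X
  f : J → G
  g : J → G
  b : J → G
  fT : ∀ j z, z ∈ T j → f j • z ∈ T j
  gT : ∀ j z, z ∈ T j → g j • z ∈ T j
  disj : ∀ j z z', z ∈ T j → z' ∈ T j → f j • z ≠ g j • z'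
  cover : ∀ z, ∃ j, z ∈ T j ∨ b j • z ∈ T j ∨ (b j)⁻¹ • z ∈ T j

/-- finite support -/
def FS (φ : X → ℝ) : Prop := (Function.support φ).Finite

theorem FS.summable {φ : X → ℝ} (h : FS φ) : Summable φ := summable_of_hasFiniteSupport h

theorem FS.of_zero {φ ψ : X → ℝ} (h : FS φ) (h' : ∀ z, φ z = 0 → ψ z = 0) : FS ψ := by
  apply Set.Finite.subset h
  intro z hz hz'
  exact hz (h' z hz')

theorem FS.add {φ ψ : X → ℝ} (h : FS φ) (h' : FS ψ) : FS (fun z => φ z + ψ z) := by
  apply Set.Finite.subset (h.union h')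
  intro z hz
  by_contra hcon
  simp only [Set.mem_union, Function.mem_support, not_or, not_not] at hcon
  apply hz
  simp [hcon.1, hcon.2]

theorem FS.sub {φ ψ : X → ℝ} (h : FS φ) (h' : FS ψ) : FS (fun z => φ z - ψ z) := by
  apply Set.Finite.subset (h.union h')
  intro z hz
  by_contra hcon
  simp only [Set.mem_union, Function.mem_support, not_or, not_not] at hcon
  apply hz
  simp [hcon.1, hcon.2]

theorem FS.sq {φ : X → ℝ} (h : FS φ) : FS (fun z => φ z ^ 2) :=
  h.of_zero fun z hz => by simp [hz]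

theorem FS.mulc {φ : X → ℝ} (h : FS φ) (c : ℝ) : FS (fun z => c * φ z) :=
  h.of_zero fun z hz => by simp [hz]

theorem FS.sum {ι : Type*} (s : Finset ι) {φ : ι → X → ℝ} (h : ∀ i ∈ s, FS (φ i)) :
    FS (fun z => ∑ i ∈ s, φ i z) := by
  classical
  have : Function.support (fun z => ∑ i ∈ s, φ i z) ⊆ ⋃ i ∈ s, Function.support (φ i) := by
    intro z hz
    by_contra hcon
    simp only [Set.mem_iUnion, Function.mem_support, not_exists, not_not] at hcon
    apply hz
    exact Finset.sum_eq_zero hcon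
  exact Set.Finite.subset (Set.Finite.biUnion s.finite_toSet h) this

theorem FS.tr {φ : X → ℝ} (h : FS φ) (a : G) : FS (fun z => φ (a • z)) := by
  have : Function.support (fun z => φ (a • z)) = (fun z => a • z) ⁻¹' (Function.support φ) := rfl
  unfold FS
  rw [this]
  exact h.preimage (MulAction.injective a).injOn

theorem tsum_tr (φ : X → ℝ) (a : G) : ∑' z, φ (a • z) = ∑' z, φ z :=
  (MulAction.toPerm a).tsum_eq φ

/-- energy -/
noncomputable def en (φ : X → ℝ) : ℝ := ∑' z, φ z ^ 2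

/-- displacement energy -/
noncomputable def dis (a : G) (φ : X → ℝ) : ℝ := ∑' z, (φ z - φ (a⁻¹ • z)) ^ 2

theorem dis_nonneg (a : G) (φ : X → ℝ) : 0 ≤ dis a φ := tsum_nonneg fun _ => sq_nonneg _

theorem en_nonneg (φ : X → ℝ) : 0 ≤ en φ := tsum_nonneg fun _ => sq_nonneg _

open Classical in
theorem en_T_le {J : Type*} (W : WinSys G X J) (j : J) {φ : X → ℝ} (h : FS φ) :
    ∑' z, (W.T j).indicator (fun z => φ z ^ 2) z ≤ 6 * (dis (W.f j) φ + dis (W.g j) φ) := by
  set T := W.T j with hT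
  set f := W.f j with hf
  set g := W.g j with hg
  have hind : FS ((W.T j).indicator (fun z => φ z ^ 2)) := by
    apply h.sq.of_zero
    intro z hz
    simp only [Set.indicator]
    split_ifs
    · exact hz
    · rfl
  have e1 : ∑' z, T.indicator (fun z => φ z ^ 2) (f⁻¹ • z)
      = ∑' z, T.indicator (fun z => φ z ^ 2) z := tsum_tr _ f⁻¹
  have e2 : ∑' z, T.indicator (fun z => φ z ^ 2) (g⁻¹ • z)
      = ∑' z, T.indicator (fun z => φ z ^ 2) z := tsum_tr _ g⁻¹
  have d1 : FS (fun z => (φ z - φ (f⁻¹ • z)) ^ 2) := (h.sub (h.tr f⁻¹)).sq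
  have d2 : FS (fun z => (φ z - φ (g⁻¹ • z)) ^ 2) := (h.sub (h.tr g⁻¹)).sq
  have key : ∑' z, (T.indicator (fun z => φ z ^ 2) (f⁻¹ • z)
        + T.indicator (fun z => φ z ^ 2) (g⁻¹ • z))
      ≤ ∑' z, (3 / 2 * T.indicator (fun z => φ z ^ 2) z
        + (3 * (φ z - φ (f⁻¹ • z)) ^ 2 + 3 * (φ z - φ (g⁻¹ • z)) ^ 2)) := by
    apply Summable.tsum_le_tsum
    · intro z
      have hn : 0 ≤ T.indicator (fun z => φ z ^ 2) z :=
        Set.indicator_nonneg (fun _ _ => sq_nonneg _) z
      by_cases h1 : f⁻¹ • z ∈ T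
      · have h2 : g⁻¹ • z ∉ T := by
          intro h2
          have := W.disj j _ _ h1 h2
          rw [← hf, ← hg, smul_inv_smul, smul_inv_smul] at this
          exact this rfl
        have h3 : z ∈ T := by
          have := W.fT j _ h1
          rwa [← hf, smul_inv_smul] at this
        simp only [Set.indicator_of_mem h1, Set.indicator_of_notMem h2, Set.indicator_of_mem h3]
        nlinarith [sq_nonneg (φ z - 2 * (φ (f⁻¹ • z) - φ z)), sq_nonneg (φ z - φ (g⁻¹ • z))]
      · by_cases h2 : g⁻¹ • z ∈ T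
        · have h3 : z ∈ T := by
            have := W.gT j _ h2
            rwa [← hg, smul_inv_smul] at this
          simp only [Set.indicator_of_notMem h1, Set.indicator_of_mem h2, Set.indicator_of_mem h3]
          nlinarith [sq_nonneg (φ z - 2 * (φ (g⁻¹ • z) - φ z)), sq_nonneg (φ z - φ (f⁻¹ • z))]
        · simp only [Set.indicator_of_notMem h1, Set.indicator_of_notMem h2]
          nlinarith [sq_nonneg (φ z - φ (f⁻¹ • z)), sq_nonneg (φ z - φ (g⁻¹ • z))]
    · exact ((hind.tr f⁻¹).add (hind.tr g⁻¹)).summable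
    · exact ((hind.mulc _).add ((d1.mulc 3).add (d2.mulc 3))).summable
  rw [Summable.tsum_add (hind.tr f⁻¹).summable (hind.tr g⁻¹).summable,
    Summable.tsum_add (hind.mulc _).summable ((d1.mulc 3).add (d2.mulc 3)).summable,
    Summable.tsum_add (d1.mulc 3).summable (d2.mulc 3).summable,
    tsum_mul_left, tsum_mul_left, tsum_mul_left, e1, e2] at key
  have k1 : ∑' z, (φ z - φ (f⁻¹ • z)) ^ 2 = dis f φ := rfl
  have k2 : ∑' z, (φ z - φ (g⁻¹ • z)) ^ 2 = dis g φ := rfl
  rw [k1, k2] at key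
  linarith

open Classical in
theorem gap {J : Type*} [Fintype J] (W : WinSys G X J) {φ : X → ℝ} (h : FS φ) :
    en φ ≤ ∑ j, (30 * dis (W.f j) φ + 30 * dis (W.g j) φ + 4 * dis (W.b j) φ) := by
  have hind : ∀ j, FS ((W.T j).indicator (fun z => φ z ^ 2)) := by
    intro j
    apply h.sq.of_zero
    intro z hz
    simp only [Set.indicator]
    split_ifs
    · exact hz
    · rfl
  have dd : ∀ a : G, FS (fun z => (φ z - φ (a • z)) ^ 2) := fun a => (h.sub (h.tr a)).sq
  let F : J → X → ℝ := fun j z => (W.T j).indicator (fun z => φ z ^ 2) z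
    + ((2 * (W.T j).indicator (fun z => φ z ^ 2) (W.b j • z) + 2 * (φ z - φ (W.b j • z)) ^ 2)
    + (2 * (W.T j).indicator (fun z => φ z ^ 2) ((W.b j)⁻¹ • z)
        + 2 * (φ z - φ ((W.b j)⁻¹ • z)) ^ 2))
  have hF : ∀ j, FS (F j) := fun j =>
    (hind j).add (((((hind j).tr _).mulc 2).add ((dd _).mulc 2)).add
      ((((hind j).tr _).mulc 2).add ((dd _).mulc 2)))
  have key : en φ ≤ ∑' z, ∑ j, F j z := by
    apply Summable.tsum_le_tsum
    · intro z
      obtain ⟨j, hj⟩ := W.cover z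
      have hFn : ∀ j, 0 ≤ F j z := by
        intro j
        have hn : ∀ z, 0 ≤ (W.T j).indicator (fun z => φ z ^ 2) z := fun z =>
          Set.indicator_nonneg (fun _ _ => sq_nonneg _) z
        have := hn z
        have := hn (W.b j • z)
        have := hn ((W.b j)⁻¹ • z)
        simp only [F]
        positivity
      have hle : φ z ^ 2 ≤ F j z := by
        have hn : ∀ z, 0 ≤ (W.T j).indicator (fun z => φ z ^ 2) z := fun z =>
          Set.indicator_nonneg (fun _ _ => sq_nonneg _) z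
        have n1 := hn z
        have n2 := hn (W.b j • z)
        have n3 := hn ((W.b j)⁻¹ • z)
        have s1 := sq_nonneg (φ z - φ (W.b j • z))
        have s2 := sq_nonneg (φ z - φ ((W.b j)⁻¹ • z))
        rcases hj with hj | hj | hj
        · have e := Set.indicator_of_mem hj (fun z => φ z ^ 2)
          simp only [F]
          rw [e]
          nlinarith
        · have e := Set.indicator_of_mem hj (fun z => φ z ^ 2)
          simp only [F]
          rw [e]
          nlinarith [sq_nonneg (φ z - 2 * φ (W.b j • z))]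
        · have e := Set.indicator_of_mem hj (fun z => φ z ^ 2)
          simp only [F]
          rw [e]
          nlinarith [sq_nonneg (φ z - 2 * φ ((W.b j)⁻¹ • z))]
      exact hle.trans (Finset.single_le_sum (fun j _ => hFn j) (Finset.mem_univ j))
    · exact h.sq.summable
    · exact (FS.sum _ fun j _ => hF j).summable
  rw [Summable.tsum_finsetSum (fun j _ => (hF j).summable)] at key
  refine key.trans (Finset.sum_le_sum fun j _ => ?_)
  have e1 : ∑' z, (W.T j).indicator (fun z => φ z ^ 2) (W.b j • z)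
      = ∑' z, (W.T j).indicator (fun z => φ z ^ 2) z := tsum_tr _ _
  have e2 : ∑' z, (W.T j).indicator (fun z => φ z ^ 2) ((W.b j)⁻¹ • z)
      = ∑' z, (W.T j).indicator (fun z => φ z ^ 2) z := tsum_tr _ _
  have e3 : ∑' z, (φ z - φ (W.b j • z)) ^ 2 = dis (W.b j) φ := by
    have h1 := tsum_tr (fun z => (φ ((W.b j)⁻¹ • z) - φ z) ^ 2) (W.b j)
    simp only [inv_smul_smul] at h1
    rw [h1]
    unfold dis
    congr 1
    ext z
    ring
  have e4 : ∑' z, (φ z - φ ((W.b j)⁻¹ • z)) ^ 2 = dis (W.b j) φ := rfl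
  have hsum : ∑' z, F j z = ∑' z, (W.T j).indicator (fun z => φ z ^ 2) z
      + ((2 * ∑' z, (W.T j).indicator (fun z => φ z ^ 2) z + 2 * dis (W.b j) φ)
      + (2 * ∑' z, (W.T j).indicator (fun z => φ z ^ 2) z + 2 * dis (W.b j) φ)) := by
    simp only [F]
    rw [Summable.tsum_add (hind j).summable
        (((((hind j).tr _).mulc 2).add ((dd _).mulc 2)).add
      ((((hind j).tr _).mulc 2).add ((dd _).mulc 2))).summable,
      Summable.tsum_add ((((hind j).tr _).mulc 2).add ((dd _).mulc 2)).summable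
        ((((hind j).tr _).mulc 2).add ((dd _).mulc 2)).summable,
      Summable.tsum_add (((hind j).tr _).mulc 2).summable ((dd _).mulc 2).summable,
      Summable.tsum_add (((hind j).tr _).mulc 2).summable ((dd _).mulc 2).summable,
      tsum_mul_left, tsum_mul_left, tsum_mul_left, tsum_mul_left, e1, e2, e3, e4]
  rw [hsum]
  have := en_T_le W j h
  linarith

/-- The averaging operator (unnormalised). -/
noncomputable def av (S : Finset G) (φ : X → ℝ) : X → ℝ := fun z => ∑ s ∈ S, φ (s⁻¹ • z)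

theorem FS.av {φ : X → ℝ} (h : FS φ) (S : Finset G) : FS (av S φ) :=
  FS.sum _ fun s _ => h.tr s⁻¹

open Classical in
theorem var_ineq (S : Finset G) (h1 : (1 : G) ∈ S) (a : G → ℝ) :
    (∑ s ∈ S, a s) ^ 2 ≤ S.card * ∑ s ∈ S, a s ^ 2 - ∑ s ∈ S, (a 1 - a s) ^ 2 := by
  obtain ⟨n, hn⟩ : ∃ n : ℝ, n = (S.card : ℝ) := ⟨_, rfl⟩
  rw [← hn]
  have e1 : ∑ s ∈ S, (a s - a 1) = ∑ s ∈ S, a s - n * a 1 := by
    rw [Finset.sum_sub_distrib, Finset.sum_const, nsmul_eq_mul, ← hn]
  have e2 : ∑ s ∈ S, (a 1 - a s) ^ 2 = ∑ s ∈ S, a s ^ 2 - 2 * a 1 * ∑ s ∈ S, a s + n * a 1 ^ 2 := by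
    have : ∀ s ∈ S, (a 1 - a s) ^ 2 = a s ^ 2 - 2 * a 1 * a s + a 1 ^ 2 := fun s _ => by ring
    rw [Finset.sum_congr rfl this, Finset.sum_add_distrib, Finset.sum_sub_distrib,
      ← Finset.mul_sum, Finset.sum_const, nsmul_eq_mul, ← hn]
  have e3 : (∑ s ∈ S, (a s - a 1)) ^ 2 ≤ (n - 1) * ∑ s ∈ S, (a 1 - a s) ^ 2 := by
    have h2 : ∑ s ∈ S, (a s - a 1) = ∑ s ∈ S.erase 1, (a s - a 1) := by
      rw [← Finset.add_sum_erase S _ h1]; simp
    have h3 : ∑ s ∈ S, (a 1 - a s) ^ 2 = ∑ s ∈ S.erase 1, (a s - a 1) ^ 2 := by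
      rw [← Finset.add_sum_erase S _ h1]
      simp only [sub_self, ne_eq, OfNat.ofNat_ne_zero, not_false_eq_true, zero_pow, zero_add]
      exact Finset.sum_congr rfl fun s _ => by ring
    rw [h2, h3]
    have h4 := sq_sum_le_card_mul_sum_sq (s := S.erase 1) (f := fun s => a s - a 1)
    have h5 : ((S.erase 1).card : ℝ) = n - 1 := by
      rw [Finset.card_erase_of_mem h1, Nat.cast_sub (Finset.card_pos.mpr ⟨1, h1⟩), Nat.cast_one, hn]
    rw [h5] at h4
    exact h4
  rw [e1] at e3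
  nlinarith [e2, e3]

theorem en_av_le (S : Finset G) (h1 : (1 : G) ∈ S) {φ : X → ℝ} (h : FS φ) :
    en (av S φ) ≤ (S.card : ℝ) ^ 2 * en φ - ∑ s ∈ S, dis s φ := by
  have hs : ∀ s : G, FS (fun z => φ (s⁻¹ • z) ^ 2) := fun s => (h.tr s⁻¹).sq
  have hd : ∀ s : G, FS (fun z => (φ z - φ (s⁻¹ • z)) ^ 2) := fun s => (h.sub (h.tr s⁻¹)).sq
  have key : en (av S φ) ≤ ∑' z, (S.card * ∑ s ∈ S, φ (s⁻¹ • z) ^ 2
      - ∑ s ∈ S, (φ z - φ (s⁻¹ • z)) ^ 2) := by
    apply Summable.tsum_le_tsum
    · intro z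
      have := var_ineq S h1 (fun s => φ (s⁻¹ • z))
      simp only [inv_one, one_smul] at this
      exact this
    · exact (h.av S).sq.summable
    · exact (((FS.sum S fun s _ => hs s).mulc _).sub (FS.sum S fun s _ => hd s)).summable
  rw [Summable.tsum_sub ((FS.sum S fun s _ => hs s).mulc _).summable
    (FS.sum S fun s _ => hd s).summable, tsum_mul_left,
    Summable.tsum_finsetSum (fun s _ => (hs s).summable),
    Summable.tsum_finsetSum (fun s _ => (hd s).summable)] at key
  have e1 : ∀ s ∈ S, ∑' z, φ (s⁻¹ • z) ^ 2 = en φ := fun s _ =>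
    tsum_tr (fun z => φ z ^ 2) s⁻¹
  rw [Finset.sum_congr rfl e1, Finset.sum_const, nsmul_eq_mul] at key
  have e2 : ∑ s ∈ S, ∑' z, (φ z - φ (s⁻¹ • z)) ^ 2 = ∑ s ∈ S, dis s φ := rfl
  rw [e2] at key
  nlinarith [key]

/-- Contraction of the energy. -/
theorem exists_contraction {J : Type*} [Fintype J] (W : WinSys G X J) (S : Finset G)
    (h1 : (1 : G) ∈ S) (hf : ∀ j, W.f j ∈ S) (hg : ∀ j, W.g j ∈ S) (hb : ∀ j, W.b j ∈ S) :
    ∃ c : ℝ, 0 ≤ c ∧ c < (S.card : ℝ) ^ 2 ∧ ∀ φ : X → ℝ, FS φ → en (av S φ) ≤ c * en φ := by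
  set N : ℝ := 64 * Fintype.card J + 1 with hN
  have hNpos : 1 ≤ N := by
    rw [hN]; have : (0 : ℝ) ≤ Fintype.card J := Nat.cast_nonneg _; linarith
  have hcard : (1 : ℝ) ≤ (S.card : ℝ) ^ 2 := by
    have : (1 : ℝ) ≤ S.card := by exact_mod_cast Finset.card_pos.mpr ⟨1, h1⟩
    nlinarith
  refine ⟨(S.card : ℝ) ^ 2 - 1 / N, ?_, ?_, ?_⟩
  · have : 1 / N ≤ 1 := by rw [div_le_one (by linarith)]; exact hNpos
    linarith
  · have : 0 < 1 / N := by positivity
    linarith
  · intro φ h
    have h2 := en_av_le S h1 h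
    have h3 := gap W h
    have hD : ∀ a ∈ S, dis a φ ≤ ∑ s ∈ S, dis s φ := fun a ha =>
      Finset.single_le_sum (fun s _ => dis_nonneg s φ) ha
    have h4 : en φ ≤ N * ∑ s ∈ S, dis s φ := by
      have hD0 : 0 ≤ ∑ s ∈ S, dis s φ := Finset.sum_nonneg fun s _ => dis_nonneg s φ
      calc en φ ≤ ∑ j, (30 * dis (W.f j) φ + 30 * dis (W.g j) φ + 4 * dis (W.b j) φ) := h3
        _ ≤ ∑ _j : J, 64 * ∑ s ∈ S, dis s φ := by
          apply Finset.sum_le_sum
          intro j _
          have := hD _ (hf j)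
          have := hD _ (hg j)
          have := hD _ (hb j)
          linarith
        _ = (64 * Fintype.card J) * ∑ s ∈ S, dis s φ := by
          rw [Finset.sum_const, nsmul_eq_mul, Finset.card_univ]; ring
        _ ≤ N * ∑ s ∈ S, dis s φ := by
          apply mul_le_mul_of_nonneg_right _ hD0
          rw [hN]; linarith
    have h5 : 1 / N * en φ ≤ ∑ s ∈ S, dis s φ := by
      rw [div_mul_eq_mul_div, one_mul, div_le_iff₀ (by linarith)]
      linarith
    nlinarith

/-- Number of words of length `t` with a property. -/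
noncomputable def cnt (S : Finset G) : ℕ → (G → Prop) → ℝ
  | 0, p => by
      classical
      exact if p 1 then 1 else 0
  | t + 1, p => ∑ s ∈ S, cnt S t (fun v => p (s * v))

theorem cnt_zero (S : Finset G) (p : G → Prop) [Decidable (p 1)] :
    cnt S 0 p = if p 1 then 1 else 0 := by
  unfold cnt
  split_ifs <;> rfl

theorem cnt_succ (S : Finset G) (t : ℕ) (p : G → Prop) :
    cnt S (t + 1) p = ∑ s ∈ S, cnt S t (fun v => p (s * v)) := rfl

/-- products of `t` elements of `S` -/
def Wd (S : Finset G) : ℕ → G → Prop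
  | 0, v => v = 1
  | t + 1, v => ∃ s ∈ S, ∃ v', Wd S t v' ∧ v = s * v'

open Classical in
theorem cnt_nonneg (S : Finset G) (t : ℕ) : ∀ p : G → Prop, 0 ≤ cnt S t p := by
  induction t with
  | zero => intro p; rw [cnt_zero]; split_ifs <;> norm_num
  | succ t ih => intro p; rw [cnt_succ]; exact Finset.sum_nonneg fun s _ => ih _

open Classical in
theorem cnt_all (S : Finset G) (t : ℕ) : ∀ p : G → Prop, (∀ v, Wd S t v → p v) →
    cnt S t p = (S.card : ℝ) ^ t := by
  induction t with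
  | zero => intro p hp; rw [cnt_zero, if_pos (hp 1 rfl)]; simp
  | succ t ih =>
    intro p hp
    rw [cnt_succ]
    have : ∀ s ∈ S, cnt S t (fun v => p (s * v)) = (S.card : ℝ) ^ t := by
      intro s hs
      apply ih
      intro v hv
      exact hp _ ⟨s, hs, v, hv, rfl⟩
    rw [Finset.sum_congr rfl this, Finset.sum_const, nsmul_eq_mul, pow_succ]
    ring

open Classical in
theorem cnt_union (S : Finset G) (t : ℕ) {ι : Type*} (I : Finset ι) :
    ∀ (p : G → Prop) (q : ι → G → Prop), (∀ v, p v → ∃ i ∈ I, q i v) →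
    cnt S t p ≤ ∑ i ∈ I, cnt S t (q i) := by
  induction t with
  | zero =>
    intro p q hpq
    have h0 : ∀ i ∈ I, 0 ≤ cnt S 0 (q i) := fun i _ => cnt_nonneg S 0 _
    rw [cnt_zero]
    split_ifs with h
    · obtain ⟨i, hi, hq⟩ := hpq 1 h
      refine le_trans ?_ (Finset.single_le_sum h0 hi)
      rw [cnt_zero, if_pos hq]
    · exact Finset.sum_nonneg h0
  | succ t ih =>
    intro p q hpq
    simp only [cnt_succ]
    rw [Finset.sum_comm]
    apply Finset.sum_le_sum
    intro s _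
    exact ih _ (fun i v => q i (s * v)) (fun v hv => hpq _ hv)

open Classical in
theorem cnt_eq_iter (S : Finset G) (α : X) (t : ℕ) : ∀ β : X,
    cnt S t (fun v => v • α = β) = (av S)^[t] (fun z => if z = α then 1 else 0) β := by
  induction t with
  | zero =>
    intro β
    rw [cnt_zero]
    simp only [one_smul, Function.iterate_zero, id_eq]
    by_cases h : α = β
    · rw [if_pos h, if_pos h.symm]
    · rw [if_neg h, if_neg (fun h' => h h'.symm)]
  | succ t ih =>
    intro β
    rw [cnt_succ, Function.iterate_succ', Function.comp_apply]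
    unfold av
    apply Finset.sum_congr rfl
    intro s _
    have : (fun v : G => (s * v) • α = β) = (fun v => v • α = s⁻¹ • β) := by
      ext v
      rw [mul_smul, eq_inv_smul_iff]
    rw [this, ih]
    rfl

open Classical in
/-- **Module B3.** Words separating finite sets. -/
theorem exists_word {J : Type*} [Fintype J] (W : WinSys G X J) (S : Finset G)
    (h1 : (1 : G) ∈ S) (hf : ∀ j, W.f j ∈ S) (hg : ∀ j, W.g j ∈ S) (hb : ∀ j, W.b j ∈ S) :
    ∃ c : ℝ, 0 ≤ c ∧ c < 1 ∧ ∀ (R K : ℕ), (K : ℝ) ^ 2 * c ^ R < 1 →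
      ∀ A B : Finset X, A.card * B.card ≤ K → ∃ v, Wd S R v ∧ ∀ α ∈ A, v • α ∉ B := by
  obtain ⟨c, hc0, hc1, hc⟩ := exists_contraction W S h1 hf hg hb
  obtain ⟨n, hn⟩ : ∃ n : ℝ, n = (S.card : ℝ) := ⟨_, rfl⟩
  rw [← hn] at hc1
  have hn1 : (1 : ℝ) ≤ n := by rw [hn]; exact_mod_cast Finset.card_pos.mpr ⟨1, h1⟩
  have hn2 : 0 < n ^ 2 := by positivity
  refine ⟨c / n ^ 2, by positivity, by rw [div_lt_one hn2]; exact hc1, ?_⟩
  intro R K hRK A B hAB
  by_contra hcon
  push Not at hcon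
  have hall := cnt_all S R (fun v => ∃ α ∈ A, v • α ∈ B) hcon
  rw [← hn] at hall
  -- each count is small
  have hFS : ∀ (α : X) (t : ℕ), FS ((av S)^[t] (fun z => if z = α then (1 : ℝ) else 0)) ∧
      en ((av S)^[t] (fun z => if z = α then (1 : ℝ) else 0)) ≤ c ^ t := by
    intro α t
    induction t with
    | zero =>
      constructor
      · apply Set.Finite.subset (Set.finite_singleton α)
        intro z hz
        by_contra hne
        apply hz
        have : z ≠ α := hne
        simp [this]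
      · simp only [Function.iterate_zero, id_eq, en, pow_zero]
        rw [tsum_eq_single α]
        · simp
        · intro z hz; simp [hz]
    | succ t ih =>
      rw [Function.iterate_succ', Function.comp_apply]
      refine ⟨ih.1.av S, ?_⟩
      calc en (av S ((av S)^[t] (fun z => if z = α then (1 : ℝ) else 0)))
          ≤ c * en ((av S)^[t] (fun z => if z = α then (1 : ℝ) else 0)) := hc _ ih.1
        _ ≤ c * c ^ t := mul_le_mul_of_nonneg_left ih.2 hc0
        _ = c ^ (t + 1) := by ring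
  have hone : ∀ α β : X, (cnt S R (fun v => v • α = β)) ^ 2 ≤ c ^ R := by
    intro α β
    rw [cnt_eq_iter]
    refine le_trans ?_ (hFS α R).2
    have hs : Summable (fun z => ((av S)^[R] (fun z => if z = α then (1 : ℝ) else 0) z) ^ 2) :=
      (hFS α R).1.sq.summable
    exact hs.le_tsum β (fun z _ => sq_nonneg _)
  have hsum : cnt S R (fun v => ∃ α ∈ A, v • α ∈ B) ≤
      ∑ p ∈ A ×ˢ B, cnt S R (fun v => v • p.1 = p.2) := by
    apply cnt_union
    rintro v ⟨α, hα, hv⟩
    exact ⟨(α, v • α), Finset.mem_product.mpr ⟨hα, hv⟩, rfl⟩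
  have hsq : cnt S R (fun v => ∃ α ∈ A, v • α ∈ B) ≤ K * Real.sqrt (c ^ R) := by
    refine hsum.trans ?_
    have : ∀ p ∈ A ×ˢ B, cnt S R (fun v => v • p.1 = p.2) ≤ Real.sqrt (c ^ R) := by
      intro p _
      exact Real.le_sqrt_of_sq_le (hone _ _)
    refine (Finset.sum_le_sum this).trans ?_
    rw [Finset.sum_const, nsmul_eq_mul, Finset.card_product]
    apply mul_le_mul_of_nonneg_right _ (Real.sqrt_nonneg _)
    exact_mod_cast hAB
  have hpos : 0 ≤ cnt S R (fun v => ∃ α ∈ A, v • α ∈ B) := cnt_nonneg _ _ _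
  rw [hall] at hsq
  have h5 : ((n ^ R)) ^ 2 ≤ (K * Real.sqrt (c ^ R)) ^ 2 := by
    apply pow_le_pow_left₀ (by positivity) hsq
  rw [mul_pow, Real.sq_sqrt (by positivity)] at h5
  rw [div_pow, mul_div_assoc', div_lt_one (by positivity)] at hRK
  have h6 : (n ^ 2) ^ R = (n ^ R) ^ 2 := by rw [← pow_mul, ← pow_mul, mul_comm]
  rw [h6] at hRK
  linarith

end Pool.Agent.BB0160
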