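import Mathlib

set_option autoImplicit false

/-!
Hölder's theorem for archimedean bi-ordered groups, and homomorphisms to the integers.
-/

namespace Pool.Agent.BB0160

theorem holder_order {Q : Type*} [Group Q] [LinearOrder Q] [MulLeftMono Q] [MulRightMono Q]
    (arch : ∀ x y : Q, 1 < y → ∃ n : ℕ, x < y ^ n) (a b : Q) : a * b = b * a := by
  classical
  -- floor function
  have floor : ∀ x : Q, 1 < x → ∀ a : Q, 1 < a → ∃ n : ℕ, x ^ n ≤ a ∧ a < x ^ (n + 1) := by
    intro x hx a ha
    have h := arch a x hx
    let n := Nat.find h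
    have hn : a < x ^ n := Nat.find_spec h
    have hn0 : n ≠ 0 := by
      intro h0
      rw [h0, pow_zero] at hn
      exact absurd hn (not_lt.mpr ha.le)
    obtain ⟨k, hk⟩ := Nat.exists_eq_succ_of_ne_zero hn0
    refine ⟨k, ?_, ?_⟩
    · by_contra hcon
      push Not at hcon
      have : n ≤ k := Nat.find_min' h hcon
      omega
    · rw [hk] at hn; exact hn
  -- commutation of positive elements suffices
  have key : (∀ a b : Q, 1 < a → 1 < b → a * b = b * a) → ∀ a b : Q, a * b = b * a := by
    intro h a b
    have h1 : ∀ a b : Q, 1 < a → a * b = b * a := by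
      intro a b ha
      rcases lt_trichotomy 1 b with hb | hb | hb
      · exact h a b ha hb
      · rw [← hb]; simp
      · have hb' : 1 < b⁻¹ := one_lt_inv'.mpr hb
        have := h a b⁻¹ ha hb'
        have h2 : Commute a b⁻¹ := this
        exact (Commute.inv_right_iff.mp h2)
    rcases lt_trichotomy 1 a with ha | ha | ha
    · exact h1 a b ha
    · rw [← ha]; simp
    · have ha' : 1 < a⁻¹ := one_lt_inv'.mpr ha
      have h2 : Commute a⁻¹ b := h1 a⁻¹ b ha'
      exact (Commute.inv_left_iff.mp h2)
  apply key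
  clear a b
  by_cases hleast : ∃ e : Q, 1 < e ∧ ∀ c : Q, 1 < c → e ≤ c
  · obtain ⟨e, he, hmin⟩ := hleast
    have hpow : ∀ a : Q, 1 < a → ∃ n : ℕ, a = e ^ n := by
      intro a ha
      obtain ⟨n, hn, hn'⟩ := floor e he a ha
      refine ⟨n, ?_⟩
      have h1 : 1 ≤ (e ^ n)⁻¹ * a := by
        have := mul_le_mul_right hn (e ^ n)⁻¹
        rwa [inv_mul_cancel] at this
      rcases h1.lt_or_eq with h2 | h2
      · have h3 := hmin _ h2
        have h4 : e ^ n * e ≤ a := by
          have := mul_le_mul_right h3 (e ^ n)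
          rwa [mul_inv_cancel_left] at this
        rw [pow_succ] at hn'
        exact absurd hn' (not_lt.mpr h4)
      · have := inv_mul_eq_one.mp h2.symm
        exact this.symm
    intro a b ha hb
    obtain ⟨n, rfl⟩ := hpow a ha
    obtain ⟨m, rfl⟩ := hpow b hb
    rw [← pow_add, ← pow_add, add_comm]
  · push Not at hleast
    have hsq : ∀ c : Q, 1 < c → ∃ x : Q, 1 < x ∧ x * x ≤ c := by
      intro c hc
      obtain ⟨d, hd, hdc⟩ := hleast c hc
      have he : 1 < d⁻¹ * c := by
        have := mul_lt_mul_right hdc d⁻¹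
        rwa [inv_mul_cancel] at this
      refine ⟨min d (d⁻¹ * c), lt_min hd he, ?_⟩
      calc min d (d⁻¹ * c) * min d (d⁻¹ * c) ≤ d * (d⁻¹ * c) :=
            mul_le_mul' (min_le_left _ _) (min_le_right _ _)
        _ = c := by group
    have hno : ∀ a b : Q, 1 < a → 1 < b → ¬ (b * a < a * b) := by
      intro a b ha hb hlt
      have hc : 1 < (b * a)⁻¹ * (a * b) := by
        have := mul_lt_mul_right hlt (b * a)⁻¹
        rwa [inv_mul_cancel] at this
      obtain ⟨x, hx, hxx⟩ := hsq _ hc
      obtain ⟨m, hm, hm'⟩ := floor x hx a ha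
      obtain ⟨n, hn, hn'⟩ := floor x hx b hb
      have h1 : a * b < x ^ (n + m) * (x * x) := by
        calc a * b < x ^ (m + 1) * x ^ (n + 1) := mul_lt_mul_of_lt_of_lt hm' hn'
          _ = x ^ (n + m) * (x * x) := by
            rw [← pow_two, ← pow_add, ← pow_add]; congr 1; ring
      have h2 : x ^ (n + m) ≤ b * a := by
        rw [pow_add]; exact mul_le_mul' hn hm
      have h3 : x ^ (n + m) * (x * x) ≤ a * b := by
        calc x ^ (n + m) * (x * x) ≤ (b * a) * ((b * a)⁻¹ * (a * b)) := mul_le_mul' h2 hxx
          _ = a * b := by group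
      exact absurd h1 (not_lt.mpr h3)
    intro a b ha hb
    rcases lt_trichotomy (a * b) (b * a) with h | h | h
    · exact absurd h (hno b a hb ha)
    · exact h
    · exact absurd h (hno a b ha hb)

/-- Bi-invariant archimedean cones force commutativity. -/
theorem holder_cone {Q : Type*} [Group Q] (C : Set Q) (h1 : (1 : Q) ∉ C)
    (hmul : ∀ a b, a ∈ C → b ∈ C → a * b ∈ C)
    (htri : ∀ a, a ∈ C ∨ a = 1 ∨ a⁻¹ ∈ C)
    (hconj : ∀ g a, a ∈ C → g * a * g⁻¹ ∈ C)
    (harch : ∀ a b, a ∈ C → b ∈ C → ∃ n : ℕ, b⁻¹ * a ^ n ∈ C) (a b : Q) : a * b = b * a := by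
  classical
  let L : LinearOrder Q :=
    { le := fun x y => x = y ∨ x⁻¹ * y ∈ C
      lt := fun x y => x⁻¹ * y ∈ C
      le_refl := fun x => Or.inl rfl
      le_trans := by
        rintro x y z (rfl | hxy) (rfl | hyz)
        · exact Or.inl rfl
        · exact Or.inr hyz
        · exact Or.inr hxy
        · right
          have := hmul _ _ hxy hyz
          have e : x⁻¹ * y * (y⁻¹ * z) = x⁻¹ * z := by group
          rwa [e] at this
      lt_iff_le_not_ge := by
        intro x y
        constructor
        · intro h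
          refine ⟨Or.inr h, ?_⟩
          rintro (rfl | h')
          · rw [inv_mul_cancel] at h; exact h1 h
          · have := hmul _ _ h h'
            have e : x⁻¹ * y * (y⁻¹ * x) = 1 := by group
            rw [e] at this
            exact h1 this
        · rintro ⟨rfl | h, h'⟩
          · exact absurd (Or.inl rfl) h'
          · exact h
      le_antisymm := by
        rintro x y (rfl | hxy) (h | hyx)
        · rfl
        · rfl
        · exact h.symm
        · have := hmul _ _ hxy hyx
          have e : x⁻¹ * y * (y⁻¹ * x) = 1 := by group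
          rw [e] at this
          exact absurd this h1
      le_total := by
        intro x y
        rcases htri (x⁻¹ * y) with h | h | h
        · exact Or.inl (Or.inr h)
        · left; left
          exact inv_mul_eq_one.mp h
        · right; right
          have e : (x⁻¹ * y)⁻¹ = y⁻¹ * x := by group
          rwa [e] at h
      toDecidableLE := fun _ _ => Classical.propDecidable _
      toDecidableEq := fun _ _ => Classical.propDecidable _
      toDecidableLT := fun _ _ => Classical.propDecidable _ }
  have hlt : ∀ x y : Q, x < y ↔ x⁻¹ * y ∈ C := fun _ _ => Iff.rfl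
  have hle : ∀ x y : Q, x ≤ y ↔ (x = y ∨ x⁻¹ * y ∈ C) := fun _ _ => Iff.rfl
  have : MulLeftMono Q := by
    constructor
    intro c x y hxy
    rw [hle] at hxy ⊢
    rcases hxy with rfl | h
    · exact Or.inl rfl
    · right
      change (c * x)⁻¹ * (c * y) ∈ C
      have e : (c * x)⁻¹ * (c * y) = x⁻¹ * y := by group
      rwa [e]
  have : MulRightMono Q := by
    constructor
    intro c x y hxy
    rw [hle] at hxy ⊢
    rcases hxy with rfl | h
    · exact Or.inl rfl
    · right
      change (x * c)⁻¹ * (y * c) ∈ C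
      have := hconj c⁻¹ _ h
      have e : (x * c)⁻¹ * (y * c) = c⁻¹ * (x⁻¹ * y) * c⁻¹⁻¹ := by group
      rwa [e]
  apply holder_order
  intro x y hy
  rw [hlt, inv_one, one_mul] at hy
  rcases htri x with h | h | h
  · obtain ⟨n, hn⟩ := harch y x hy h
    exact ⟨n, hn⟩
  · refine ⟨1, ?_⟩
    rw [h, pow_one, hlt, inv_one, one_mul]; exact hy
  · refine ⟨0, ?_⟩
    rw [pow_zero, hlt, mul_one]; exact h

/-- Finitely generated torsion-free commutative nontrivial groups surject onto the integers. -/
theorem exists_hom_of_comm {Q : Type*} [Group Q] [Group.FG Q] [Nontrivial Q]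
    (hcomm : ∀ a b : Q, a * b = b * a) (htf : ∀ (a : Q) (n : ℕ), n ≠ 0 → a ^ n = 1 → a = 1) :
    ∃ φ : Q →* Multiplicative ℤ, φ ≠ 1 := by
  classical
  let _ : CommGroup Q := { (inferInstance : Group Q) with mul_comm := hcomm }
  let M := Additive Q
  have : AddGroup.FG M := AddGroup.fg_iff_mul_fg.mpr ‹Group.FG Q›
  have : Module.Finite ℤ M := Module.Finite.iff_addGroup_fg.mpr inferInstance
  have : IsAddTorsionFree M := by
    constructor
    intro n hn a b hab
    have h1 : (Additive.toMul a) ^ n = (Additive.toMul b) ^ n := hab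
    have h2 : ((Additive.toMul a) * (Additive.toMul b)⁻¹) ^ n = 1 := by
      rw [mul_pow, h1, inv_pow, mul_inv_cancel]
    have h3 := htf _ n hn h2
    exact Additive.toMul.injective (mul_inv_eq_one.mp h3)
  have : Module.Free ℤ M := inferInstance
  have : Nontrivial M := ‹Nontrivial Q›
  let B := Module.Free.chooseBasis ℤ M
  have hne : Nonempty (Module.Free.ChooseBasisIndex ℤ M) := B.index_nonempty
  obtain ⟨i⟩ := hne
  let ψ : Additive Q →+ ℤ := (B.coord i).toAddMonoidHom
  refine ⟨AddMonoidHom.toMultiplicativeRight ψ, ?_⟩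
  intro h
  have h1 : ψ (B i) = 1 := by
    change B.coord i (B i) = 1
    simp
  have h2 := DFunLike.congr_fun h (Additive.toMul (B i))
  have h3 : Multiplicative.ofAdd (ψ (B i)) = 1 := h2
  rw [h1] at h3
  exact absurd h3 (by decide)

end Pool.Agent.BB0160
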