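import Pool.Agent.Lib.BB0160.H64Cut
import Pool.Agent.Lib.BB0160.H64Holder

set_option autoImplicit false

/-!
If a cut of a finitely generated left-ordered group lies in no window, then the group has a
nontrivial homomorphism to the integers.
-/

namespace Pool.Agent.BB0160

open scoped Pointwise

variable {G : Type*} [Group G]

/-- Nestedness lemma, oriented version. -/
theorem window_of_cross_aux {P : Set G} (hP : LCone P) {w : Set G} (hw : Cut P w) {a b : G}
    (hb : w ⊆ b • w)
    (hlo : lo a w ⊆ lo b w) {q : G} (hq : q ∈ hi b w) (hq' : q ∉ hi a w) : InWindow P w := by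
  -- pass to a power of `b`
  obtain ⟨M, hM⟩ := Set.mem_iUnion.mp hq
  have hM : q ∈ b ^ M • w := hM
  set c : G := b ^ M with hc
  have hMpos : 0 ≤ M := by
    by_contra hneg
    have h1 : b ^ M • w ⊆ b ^ (0 : ℤ) • w := pow_mono hb (by omega)
    rw [zpow_zero, one_smul] at h1
    exact hq' (self_subset_hi a w (h1 hM))
  have hwc : w ⊆ c • w := by
    have h1 : b ^ (0 : ℤ) • w ⊆ b ^ M • w := pow_mono hb hMpos
    rwa [zpow_zero, one_smul] at h1
  have hqw : q ∉ w := fun h => hq' (self_subset_hi a w h)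
  have hic : hi a w ⊆ c • w := Low.subset_of_mem hP (hw.low.smul c) (hw.low.hi a) hM hq'
  -- the point p
  obtain ⟨p, hp, hp'⟩ : ∃ p, p ∈ c⁻¹ • w ∧ p ∉ c⁻¹ • c⁻¹ • w := by
    refine ⟨c⁻¹ * (c⁻¹ * q), ?_, ?_⟩
    · rw [mem_smul', inv_inv, mul_inv_cancel_left]
      rwa [mem_smul'] at hM
    · rw [mem_smul', mem_smul', inv_inv, mul_inv_cancel_left, mul_inv_cancel_left]
      exact hqw
  have hcp : c⁻¹ * p ∉ lo a w := by
    intro h
    have h1 := lo_subset b w (-3 * M) (hlo h)
    rw [mem_smul'] at h1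
    have e : (b ^ (-3 * M))⁻¹ * (c⁻¹ * p) = c * (c * p) := by
      rw [hc, ← zpow_neg, ← zpow_neg, ← mul_assoc, ← mul_assoc, ← zpow_add, ← zpow_add]
      congr 2; ring
    rw [e] at h1
    apply hp'
    rw [mem_smul', mem_smul', inv_inv]
    exact h1
  obtain ⟨n, hn⟩ : ∃ n : ℤ, c⁻¹ * p ∉ a ^ n • w := by
    by_contra hcon
    push Not at hcon
    exact hcp (Set.mem_iInter.mpr hcon)
  rw [mem_smul'] at hn
  set g : G := (a ^ n)⁻¹ * c⁻¹ with hg
  have hgp : g * p ∉ w := by
    rw [hg, mul_assoc]; exact hn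
  have hcq : c⁻¹ * q ∈ w := by rwa [mem_smul'] at hM
  have hgq : g * q ∈ hi a w := by
    have h1 : g * q ∈ a ^ (-n) • w := by
      rw [mem_smul', hg]
      have e : (a ^ (-n))⁻¹ * ((a ^ n)⁻¹ * c⁻¹ * q) = c⁻¹ * q := by
        rw [zpow_neg]; group
      rwa [e]
    exact subset_hi a w (-n) h1
  refine ⟨c⁻¹ * g, g, q * p⁻¹, p, ⟨?_, ?_, ?_⟩, ?_, ?_⟩
  · -- p < f p
    apply (hw.low.smul c⁻¹).lt hP hp
    rw [mem_smul', inv_inv]
    have e : c * (c⁻¹ * g * p) = g * p := by group
    rwa [e]
  · have e : c⁻¹ * g * (q * p⁻¹) * p = c⁻¹ * (g * q) := by group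
    rw [e]
    apply hw.low.lt hP _ hgp
    have h1 := hic hgq
    rwa [mem_smul'] at h1
  · have e : g * (q * p⁻¹) * p = g * q := by group
    have e' : q * p⁻¹ * p = q := by group
    rw [e, e']
    exact (hw.low.hi a).lt hP hgq hq'
  · have : c⁻¹ • w ⊆ w := by
      have h1 : c⁻¹ • w ⊆ c⁻¹ • (c • w) := Set.smul_set_mono hwc
      rwa [inv_smul_smul] at h1
    exact this hp
  · have e' : q * p⁻¹ * p = q := by group
    rw [e']
    exact hqw

/-- Nestedness lemma. -/
theorem window_of_cross {P : Set G} (hP : LCone P) {w : Set G} (hw : Cut P w) {a b : G}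
    (hlo : lo a w ⊆ lo b w) {q : G} (hq : q ∈ hi b w) (hq' : q ∉ hi a w) : InWindow P w := by
  rcases Low.total hP hw.low (hw.low.smul b) with h | h
  · exact window_of_cross_aux hP hw h hlo hq hq'
  · have h1 : w ⊆ b⁻¹ • w := by
      have h2 : b⁻¹ • (b • w) ⊆ b⁻¹ • w := Set.smul_set_mono h
      rwa [inv_smul_smul] at h2
    apply window_of_cross_aux hP hw h1 (b := b⁻¹) (a := a) (q := q)
    · rwa [lo_inv]
    · rwa [hi_inv]
    · exact hq'

/-- The hull of `a` is contained in the hull of `b`. -/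
def Sub (w : Set G) (a b : G) : Prop := hi a w ⊆ hi b w ∧ lo b w ⊆ lo a w

theorem Sub.refl (w : Set G) (a : G) : Sub w a a := ⟨Set.Subset.rfl, Set.Subset.rfl⟩

theorem Sub.trans {w : Set G} {a b c : G} (h1 : Sub w a b) (h2 : Sub w b c) : Sub w a c :=
  ⟨h1.1.trans h2.1, h2.2.trans h1.2⟩

theorem nested {P : Set G} (hP : LCone P) {w : Set G} (hw : Cut P w) (hno : ¬ InWindow P w)
    (a b : G) : Sub w a b ∨ Sub w b a := by
  rcases Low.total hP (hw.low.lo a) (hw.low.lo b) with h | h
  · -- lo a ⊆ lo b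
    right
    refine ⟨?_, h⟩
    intro q hq
    by_contra hq'
    exact hno (window_of_cross hP hw h hq hq')
  · left
    refine ⟨?_, h⟩
    intro q hq
    by_contra hq'
    exact hno (window_of_cross hP hw h hq hq')

/-- oriented version of the fixing lemma -/
theorem fix_aux {P : Set G} (hP : LCone P) {w : Set G} (hw : Cut P w) (hno : ¬ InWindow P w)
    {s t : G} (hs : w ⊆ s • w) (hts : Sub w t s) : t • hi s w ⊆ hi s w := by
  intro x hx
  by_contra hxn
  rw [mem_smul'] at hx
  obtain ⟨n, hn⟩ := Set.mem_iUnion.mp hx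
  have hn : t⁻¹ * x ∈ s ^ n • w := hn
  -- may assume n ≥ 0
  obtain ⟨k, hk0, hk⟩ : ∃ k : ℤ, 0 ≤ k ∧ t⁻¹ * x ∈ s ^ k • w := by
    rcases le_total 0 n with h | h
    · exact ⟨n, h, hn⟩
    · exact ⟨0, le_rfl, pow_mono hs h hn⟩
  set w' : Set G := s ^ k • w with hw'
  have hww' : w ⊆ w' := by
    have h1 : s ^ (0 : ℤ) • w ⊆ s ^ k • w := pow_mono hs hk0
    rwa [zpow_zero, one_smul] at h1
  have hcut' : Cut P w' := hw.smul _
  have hno' : ¬ InWindow P w' := by rw [hw', inWindow_smul_iff]; exact hno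
  have hxt : x ∈ hi t w' := by
    have h1 := subset_hi t w' 1
    rw [zpow_one] at h1
    exact h1 (by rw [mem_smul']; exact hk)
  have hxs : x ∉ hi s w' := by rw [hw', hi_smul]; exact hxn
  have hlo : lo t w' ⊆ lo s w' := by
    rcases nested hP hcut' hno' s t with h | h
    · exact h.2
    · exact absurd (h.1 hxt) hxs
  by_cases hm : ∃ m : ℤ, t ^ m • w' ⊆ w
  · obtain ⟨m, hm⟩ := hm
    apply hxn
    have h1 : w' ⊆ t ^ (-m) • w := by
      have h2 : t ^ (-m) • (t ^ m • w') ⊆ t ^ (-m) • w := Set.smul_set_mono hm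
      rwa [smul_smul, ← zpow_add, neg_add_cancel, zpow_zero, one_smul] at h2
    have h2 : t ^ (1 : ℤ) • w' ⊆ t ^ (1 : ℤ) • (t ^ (-m) • w) := Set.smul_set_mono h1
    rw [smul_smul (t ^ (1 : ℤ)) (t ^ (-m)) w, ← zpow_add, zpow_one] at h2
    have h3 : x ∈ t • w' := by rw [mem_smul']; exact hk
    exact hts.1 (subset_hi t w _ (h2 h3))
  · push Not at hm
    have h1 : ∀ m : ℤ, w ⊆ t ^ m • w' := by
      intro m
      rcases Low.total hP hw.low (hcut'.low.smul (t ^ m)) with h | h
      · exact h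
      · exact absurd h (hm m)
    have h2 : w ⊆ lo t w' := Set.subset_iInter h1
    have h3 : w ⊆ lo s w := by
      have := h2.trans hlo
      rwa [hw', lo_smul] at this
    -- so w is fixed by s
    have h4 : s • w = w := by
      apply Set.Subset.antisymm
      · have h5 : w ⊆ s ^ (-1 : ℤ) • w := h3.trans (lo_subset s w (-1))
        have h6 : s • w ⊆ s • (s ^ (-1 : ℤ) • w) := Set.smul_set_mono h5
        rwa [zpow_neg_one, smul_inv_smul] at h6
      · exact hs
    have h5 : ∀ n : ℤ, s ^ n • w = w := by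
      intro n
      have : s ^ n ∈ MulAction.stabilizer G w := by
        apply zpow_mem
        exact h4
      exact this
    have h6 : hi s w = w := by
      unfold hi
      simp only [h5]
      exact Set.iUnion_const w
    have h7 : t • w ⊆ w := by
      have := (subset_hi t w 1).trans hts.1
      rwa [h6, zpow_one] at this
    apply hxn
    rw [h6]
    apply h7
    rw [mem_smul']
    rw [hw', h5 k] at hk
    exact hk

theorem Sub.inv_left {w : Set G} {a b : G} (h : Sub w a b) : Sub w a⁻¹ b := by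
  unfold Sub
  rw [hi_inv, lo_inv]; exact h

theorem Sub.inv_right {w : Set G} {a b : G} (h : Sub w a b) : Sub w a b⁻¹ := by
  unfold Sub
  rw [hi_inv, lo_inv]; exact h

theorem Sub.compl {w : Set G} {a b : G} (h : Sub w a b) : Sub wᶜ a b := by
  unfold Sub
  rw [hi_compl, hi_compl, lo_compl, lo_compl]
  exact ⟨Set.compl_subset_compl.mpr h.2, Set.compl_subset_compl.mpr h.1⟩

theorem fix_sub {P : Set G} (hP : LCone P) {w : Set G} (hw : Cut P w) (hno : ¬ InWindow P w)
    {s t : G} (hts : Sub w t s) : t • hi s w ⊆ hi s w := by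
  rcases Low.total hP hw.low (hw.low.smul s) with h | h
  · exact fix_aux hP hw hno h hts
  · have h1 : w ⊆ s⁻¹ • w := by
      have h2 : s⁻¹ • (s • w) ⊆ s⁻¹ • w := Set.smul_set_mono h
      rwa [inv_smul_smul] at h2
    have := fix_aux hP hw hno h1 hts.inv_right
    rwa [hi_inv] at this

theorem fix_hi {P : Set G} (hP : LCone P) {w : Set G} (hw : Cut P w) (hno : ¬ InWindow P w)
    {s t : G} (hts : Sub w t s) : t • hi s w = hi s w := by
  apply Set.Subset.antisymm (fix_sub hP hw hno hts)
  have h1 := fix_sub hP hw hno hts.inv_left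
  have h2 : t • (t⁻¹ • hi s w) ⊆ t • hi s w := Set.smul_set_mono h1
  rwa [smul_inv_smul] at h2

theorem fix_lo {P : Set G} (hP : LCone P) {w : Set G} (hw : Cut P w) (hno : ¬ InWindow P w)
    {s t : G} (hts : Sub w t s) : t • lo s w = lo s w := by
  have h1 := fix_hi hP.inv hw.compl (fun h => hno (inWindow_rev_iff.mp h)) hts.compl
  rw [hi_compl, Set.smul_set_compl] at h1
  exact compl_injective h1

/-- `h` has a full hull. -/
def Full (w : Set G) (h : G) : Prop := hi h w = Set.univ ∧ lo h w = ∅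

theorem exists_pow_of_hi {P : Set G} (hP : LCone P) {w w' : Set G} (hw : Low P w)
    (hw' : Cut P w') {a : G} (h : hi a w = Set.univ) : ∃ n : ℤ, w' ⊆ a ^ n • w := by
  obtain ⟨x, hx⟩ := hw'.nu
  have : x ∈ hi a w := by rw [h]; trivial
  obtain ⟨n, hn⟩ := Set.mem_iUnion.mp this
  exact ⟨n, Low.subset_of_mem hP (hw.smul _) hw'.low hn hx⟩

theorem exists_pow_of_lo {P : Set G} (hP : LCone P) {w w' : Set G} (hw : Low P w)
    (hw' : Cut P w') {a : G} (h : lo a w = ∅) : ∃ n : ℤ, a ^ n • w ⊆ w' := by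
  obtain ⟨x, hx⟩ := hw'.ne
  have : x ∉ lo a w := by rw [h]; exact Set.notMem_empty x
  have h2 : ∃ n : ℤ, x ∉ a ^ n • w := by
    by_contra hcon
    push Not at hcon
    exact this (Set.mem_iInter.mpr hcon)
  obtain ⟨n, hn⟩ := h2
  exact ⟨n, Low.subset_of_mem hP hw'.low (hw.smul _) hx hn⟩

theorem hi_mono (a : G) {w w' : Set G} (h : w ⊆ w') : hi a w ⊆ hi a w' :=
  Set.iUnion_mono fun _ => Set.smul_set_mono h

theorem lo_mono (a : G) {w w' : Set G} (h : w ⊆ w') : lo a w ⊆ lo a w' :=
  Set.iInter_mono fun _ => Set.smul_set_mono h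

theorem Full.change {P : Set G} (hP : LCone P) {w w' : Set G} (hw : Cut P w) (hw' : Cut P w')
    {a : G} (h : Full w a) : Full w' a := by
  obtain ⟨n, hn⟩ := exists_pow_of_hi hP hw.low hw' h.1
  obtain ⟨m, hm⟩ := exists_pow_of_lo hP hw.low hw' h.2
  refine ⟨?_, ?_⟩
  · rw [Set.eq_univ_iff_forall]
    intro x
    have h1 : x ∈ hi a (a ^ m • w) := by rw [hi_smul, h.1]; trivial
    exact hi_mono a hm h1
  · rw [Set.eq_empty_iff_forall_notMem]
    intro x hx
    have h1 : x ∈ lo a (a ^ n • w) := lo_mono a hn hx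
    rw [lo_smul, h.2] at h1
    exact h1

theorem Full.inv {w : Set G} {a : G} (h : Full w a) : Full w a⁻¹ := by
  unfold Full
  rw [hi_inv, lo_inv]; exact h

theorem full_inv_iff {w : Set G} {a : G} : Full w a⁻¹ ↔ Full w a :=
  ⟨fun h => by simpa using h.inv, fun h => h.inv⟩

theorem lo_conj (a c : G) (w : Set G) : c • lo a w = lo (c * a * c⁻¹) (c • w) := by
  ext x
  simp only [lo, mem_smul', Set.mem_iInter, conj_zpow]
  refine forall_congr' fun n => ?_
  have e : c⁻¹ * ((c * a ^ n * c⁻¹)⁻¹ * x) = (a ^ n)⁻¹ * (c⁻¹ * x) := by group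
  rw [e]

theorem Full.conj {P : Set G} (hP : LCone P) {w : Set G} (hw : Cut P w) {a : G} (h : Full w a)
    (c : G) : Full w (c * a * c⁻¹) := by
  have h1 : Full (c • w) (c * a * c⁻¹) := by
    refine ⟨?_, ?_⟩
    · rw [← hi_conj, h.1, Set.smul_set_univ]
    · rw [← lo_conj, h.2, Set.smul_set_empty]
  exact h1.change hP (hw.smul c) hw

theorem smul_zpow_subset {A U : Set G} {c : G} (hc : c • U = U) (hA : A ⊆ U) (n : ℤ) :
    c ^ n • A ⊆ U := by
  have h1 : c ^ n • U = U := by
    have : c ^ n ∈ MulAction.stabilizer G U := zpow_mem (show c ∈ MulAction.stabilizer G U from hc) n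
    exact this
  rw [← h1]
  exact Set.smul_set_mono hA

theorem subset_smul_zpow {A U : Set G} {c : G} (hc : c • U = U) (hA : U ⊆ A) (n : ℤ) :
    U ⊆ c ^ n • A := by
  have h1 : c ^ n • U = U := by
    have : c ^ n ∈ MulAction.stabilizer G U := zpow_mem (show c ∈ MulAction.stabilizer G U from hc) n
    exact this
  nth_rewrite 1 [← h1]
  exact Set.smul_set_mono hA

/-- The subgroup of elements whose hull is not full. -/
theorem not_full_mul {P : Set G} (hP : LCone P) {w : Set G} (hw : Cut P w)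
    (hno : ¬ InWindow P w) {a b : G} (ha : ¬ Full w a) (hb : ¬ Full w b) : ¬ Full w (a * b) := by
  have main : ∀ c, ¬ Full w c → Sub w a c → Sub w b c → ¬ Full w (a * b) := by
    intro c hc hac hbc hfull
    apply hc
    have h1 : (a * b) • hi c w = hi c w := by
      rw [← smul_smul, fix_hi hP hw hno hbc, fix_hi hP hw hno hac]
    have h2 : (a * b) • lo c w = lo c w := by
      rw [← smul_smul, fix_lo hP hw hno hbc, fix_lo hP hw hno hac]
    refine ⟨?_, ?_⟩
    · rw [Set.eq_univ_iff_forall]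
      intro x
      have h3 : x ∈ hi (a * b) w := by rw [hfull.1]; trivial
      obtain ⟨n, hn⟩ := Set.mem_iUnion.mp h3
      exact smul_zpow_subset h1 (self_subset_hi c w) n hn
    · rw [Set.eq_empty_iff_forall_notMem]
      intro x hx
      have h3 : x ∉ lo (a * b) w := by rw [hfull.2]; exact Set.notMem_empty x
      apply h3
      apply Set.mem_iInter.mpr
      intro n
      exact subset_smul_zpow h2 (lo_subset_self c w) n hx
  rcases nested hP hw hno a b with h | h
  · exact main b hb h (Sub.refl w b)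
  · exact main a ha (Sub.refl w a) h

/-- maximal hull in a finite set -/
theorem exists_max_hull {P : Set G} (hP : LCone P) {w : Set G} (hw : Cut P w)
    (hno : ¬ InWindow P w) (S : Finset G) (hS : S.Nonempty) :
    ∃ s ∈ S, ∀ t ∈ S, Sub w t s := by
  classical
  induction hS using Finset.Nonempty.cons_induction with
  | singleton a =>
    refine ⟨a, Finset.mem_singleton_self a, ?_⟩
    intro t ht
    rw [Finset.mem_singleton.mp ht]
    exact Sub.refl w a
  | cons a S ha hS ih =>
    obtain ⟨s, hs, hmax⟩ := ih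
    rcases nested hP hw hno a s with h | h
    · refine ⟨s, Finset.mem_cons_of_mem hs, ?_⟩
      intro t ht
      rcases Finset.mem_cons.mp ht with rfl | ht
      · exact h
      · exact hmax t ht
    · refine ⟨a, Finset.mem_cons_self a S, ?_⟩
      intro t ht
      rcases Finset.mem_cons.mp ht with rfl | ht
      · exact Sub.refl w _
      · exact (hmax t ht).trans h

/-- A set fixed by a generating set is trivial. -/
theorem trivial_of_fixed {S : Set G} (hS : Subgroup.closure S = ⊤) {U : Set G}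
    (h : ∀ t ∈ S, t • U = U) {x : G} (hx : x ∈ U) : U = Set.univ := by
  have h1 : Subgroup.closure S ≤ MulAction.stabilizer G U := by
    rw [Subgroup.closure_le]
    intro t ht
    exact h t ht
  rw [hS] at h1
  rw [Set.eq_univ_iff_forall]
  intro y
  have h2 : (y * x⁻¹) • U = U := h1 (Subgroup.mem_top _)
  rw [← h2, mem_smul']
  have e : (y * x⁻¹)⁻¹ * y = x := by group
  rwa [e]

theorem exists_full {P : Set G} (hP : LCone P) {w : Set G} (hw : Cut P w)
    (hno : ¬ InWindow P w) (S : Finset G) (hS : Subgroup.closure (S : Set G) = ⊤) :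
    ∃ s, Full w s := by
  have hne : S.Nonempty := by
    rw [Finset.nonempty_iff_ne_empty]
    rintro rfl
    obtain ⟨x, hx⟩ := hw.ne
    obtain ⟨y, hy⟩ := hw.nu
    have := trivial_of_fixed hS (U := w) (by simp) hx
    rw [this] at hy
    exact hy trivial
  obtain ⟨s, hs, hmax⟩ := exists_max_hull hP hw hno S hne
  refine ⟨s, ?_, ?_⟩
  · obtain ⟨x, hx⟩ := hw.ne
    exact trivial_of_fixed hS (fun t ht => fix_hi hP hw hno (hmax t ht)) (self_subset_hi s w hx)
  · by_contra hcon
    rw [← ne_eq, ← Set.nonempty_iff_ne_empty] at hcon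
    obtain ⟨x, hx⟩ := hcon
    have := trivial_of_fixed hS (fun t ht => fix_lo hP hw hno (hmax t ht)) hx
    obtain ⟨y, hy⟩ := hw.nu
    apply hy
    apply lo_subset_self s w
    rw [this]; trivial

/-- The subgroup of non-full elements. -/
def NF {P : Set G} (hP : LCone P) {w : Set G} (hw : Cut P w) (hno : ¬ InWindow P w) :
    Subgroup G where
  carrier := {h | ¬ Full w h}
  one_mem' := by
    intro h
    obtain ⟨x, hx⟩ := hw.nu
    have : x ∈ hi 1 w := by rw [h.1]; trivial
    simp only [hi, one_zpow, one_smul, Set.mem_iUnion, exists_const] at this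
    exact hx this
  mul_mem' := fun ha hb => not_full_mul hP hw hno ha hb
  inv_mem' := fun {a} ha h => ha (full_inv_iff.mp h)

theorem mem_NF {P : Set G} (hP : LCone P) {w : Set G} (hw : Cut P w) (hno : ¬ InWindow P w)
    {a : G} : a ∈ NF hP hw hno ↔ ¬ Full w a := Iff.rfl

theorem NF_normal {P : Set G} (hP : LCone P) {w : Set G} (hw : Cut P w)
    (hno : ¬ InWindow P w) : (NF hP hw hno).Normal := by
  constructor
  intro a ha g h
  apply ha
  have := h.conj hP hw g⁻¹
  have e : g⁻¹ * (g * a * g⁻¹) * g⁻¹⁻¹ = a := by group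
  rwa [e] at this

/-- full elements moving up -/
def UpSet (w : Set G) : Set G := {g | Full w g ∧ w ⊆ g • w}

theorem UpSet.up {P : Set G} (hP : LCone P) {w w' : Set G} (hw : Cut P w) (hw' : Cut P w')
    {g : G} (hg : g ∈ UpSet w) : w' ⊆ g • w' := by
  rcases Low.total hP hw'.low (hw'.low.smul g) with h | h
  · exact h
  · exfalso
    obtain ⟨m, hm⟩ := exists_pow_of_lo hP hw.low hw' hg.1.2
    have h1 : ∀ k : ℕ, g ^ k • w' ⊆ w' := by
      intro k
      induction k with
      | zero => simp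
      | succ k ih =>
        rw [pow_succ, ← smul_smul]
        exact (Set.smul_set_mono h).trans ih
    obtain ⟨x, hx⟩ := hw'.nu
    have h2 : x ∈ hi g w := by rw [hg.1.1]; trivial
    obtain ⟨n, hn⟩ := Set.mem_iUnion.mp h2
    have hn : x ∈ g ^ n • w := hn
    have h3 : x ∈ g ^ (m + ((n - m).toNat : ℤ)) • w := by
      apply pow_mono hg.2 _ hn
      have := Int.self_le_toNat (n - m)
      omega
    have h4 : g ^ (m + ((n - m).toNat : ℤ)) • w ⊆ w' := by
      rw [add_comm, zpow_add, zpow_natCast, ← smul_smul]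
      exact (Set.smul_set_mono hm).trans (h1 _)
    exact hx (h4 h3)

theorem UpSet.mul {P : Set G} (hP : LCone P) {w : Set G} (hw : Cut P w)
    {a b : G} (ha : a ∈ UpSet w) (hb : b ∈ UpSet w) : a * b ∈ UpSet w := by
  have hup : ∀ u : Set G, Cut P u → a • u ⊆ (a * b) • u := by
    intro u hu
    rw [← smul_smul]
    exact Set.smul_set_mono (UpSet.up hP hw hu hb)
  have hdn : ∀ u : Set G, Cut P u → (a * b)⁻¹ • u ⊆ a⁻¹ • u := by
    intro u hu
    have h1 := hup ((a * b)⁻¹ • u) (hu.smul _)
    rw [smul_inv_smul] at h1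
    have h2 : a⁻¹ • (a • (a * b)⁻¹ • u) ⊆ a⁻¹ • u := Set.smul_set_mono h1
    rwa [inv_smul_smul] at h2
  have hup' : ∀ n : ℕ, a ^ n • w ⊆ (a * b) ^ n • w := by
    intro n
    induction n with
    | zero => simp
    | succ n ih =>
      rw [pow_succ', pow_succ', ← smul_smul, ← smul_smul]
      exact (Set.smul_set_mono ih).trans (hup _ (hw.smul _))
  have hdn' : ∀ n : ℕ, ((a * b)⁻¹) ^ n • w ⊆ (a⁻¹) ^ n • w := by
    intro n
    induction n with
    | zero => simp
    | succ n ih =>
      rw [pow_succ', pow_succ', ← smul_smul, ← smul_smul]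
      exact (Set.smul_set_mono ih).trans (hdn _ (hw.smul _))
  refine ⟨⟨?_, ?_⟩, ?_⟩
  · rw [Set.eq_univ_iff_forall]
    intro x
    have h2 : x ∈ hi a w := by rw [ha.1.1]; trivial
    obtain ⟨n, hn⟩ := Set.mem_iUnion.mp h2
    have hn : x ∈ a ^ n • w := hn
    have h3 : x ∈ a ^ ((n.toNat : ℤ)) • w := pow_mono ha.2 (Int.self_le_toNat n) hn
    rw [zpow_natCast] at h3
    have h4 := subset_hi (a * b) w (n.toNat : ℤ)
    rw [zpow_natCast] at h4
    exact h4 (hup' _ h3)
  · rw [Set.eq_empty_iff_forall_notMem]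
    intro x hx
    have h2 : x ∉ lo a w := by rw [ha.1.2]; exact Set.notMem_empty x
    apply h2
    apply Set.mem_iInter.mpr
    intro n
    have h4 := lo_subset (a * b) w (-((-n).toNat : ℤ))
    rw [zpow_neg, zpow_natCast, ← inv_pow] at h4
    have h5 := hdn' _ (h4 hx)
    rw [inv_pow, ← zpow_natCast, ← zpow_neg] at h5
    apply pow_mono ha.2 _ h5
    have := Int.self_le_toNat (-n)
    omega
  · exact ha.2.trans (hup w hw)

/-- **Module B1.** If a cut of a left order on a finitely generated group is in no window then the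
group has a nontrivial homomorphism to the integers. -/
theorem exists_hom_of_not_inWindow {P : Set G} (hP : LCone P) {w : Set G} (hw : Cut P w)
    (hno : ¬ InWindow P w) (S : Finset G) (hS : Subgroup.closure (S : Set G) = ⊤) :
    ∃ φ : G →* Multiplicative ℤ, φ ≠ 1 := by
  classical
  let H := NF hP hw hno
  have hN : H.Normal := NF_normal hP hw hno
  obtain ⟨s, hs⟩ := exists_full hP hw hno S hS
  have hnotH : ∀ {a : G}, a ∉ H ↔ Full w a := by
    intro a
    exact not_not
  have hCH : ∀ a ∈ UpSet w, ∀ h ∈ H, a * h ∈ UpSet w := by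
    intro a ha h hh
    have hfull : Full w (a * h) := by
      by_contra hcon
      have h1 : a * h ∈ H := hcon
      have h2 : a ∈ H := by
        have := H.mul_mem h1 (H.inv_mem hh)
        rwa [mul_inv_cancel_right] at this
      exact h2 ha.1
    rcases Low.total hP hw.low (hw.low.smul (a * h)) with h1 | h1
    · exact ⟨hfull, h1⟩
    · exfalso
      have h2 : (a * h)⁻¹ ∈ UpSet w := by
        refine ⟨hfull.inv, ?_⟩
        have h3 : (a * h)⁻¹ • ((a * h) • w) ⊆ (a * h)⁻¹ • w := Set.smul_set_mono h1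
        rwa [inv_smul_smul] at h3
      have h3 := UpSet.mul hP hw h2 ha
      have e : (a * h)⁻¹ * a = h⁻¹ := by group
      rw [e] at h3
      exact (H.inv_mem hh) h3.1
  have hHC : ∀ a ∈ UpSet w, ∀ h ∈ H, h * a ∈ UpSet w := by
    intro a ha h hh
    have h1 : a⁻¹ * h * a ∈ H := by
      have := hN.conj_mem h hh a⁻¹
      rwa [inv_inv] at this
    have h2 := hCH a ha _ h1
    have e : a * (a⁻¹ * h * a) = h * a := by group
    rwa [e] at h2
  have hconj : ∀ a ∈ UpSet w, ∀ g : G, g * a * g⁻¹ ∈ UpSet w := by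
    intro a ha g
    refine ⟨ha.1.conj hP hw g, ?_⟩
    have h1 := UpSet.up hP hw (hw.smul g⁻¹) ha
    have h2 : g • (g⁻¹ • w) ⊆ g • (a • (g⁻¹ • w)) := Set.smul_set_mono h1
    rwa [smul_inv_smul, smul_smul, smul_smul] at h2
  have hone : (1 : G) ∉ UpSet w := by
    intro h
    exact H.one_mem h.1
  have htri : ∀ a : G, a ∈ UpSet w ∨ a ∈ H ∨ a⁻¹ ∈ UpSet w := by
    intro a
    by_cases hf : Full w a
    · rcases Low.total hP hw.low (hw.low.smul a) with h1 | h1
      · exact Or.inl ⟨hf, h1⟩
      · right; right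
        refine ⟨hf.inv, ?_⟩
        have h3 : a⁻¹ • (a • w) ⊆ a⁻¹ • w := Set.smul_set_mono h1
        rwa [inv_smul_smul] at h3
    · exact Or.inr (Or.inl hf)
  have harch : ∀ a ∈ UpSet w, ∀ b ∈ UpSet w, ∃ n : ℕ, b⁻¹ * a ^ n ∈ UpSet w := by
    intro a ha b _
    obtain ⟨n, hn⟩ := exists_pow_of_hi hP hw.low (hw.smul b) ha.1.1
    have h1 : b • w ⊆ a ^ n.toNat • w := by
      have h2 := hn.trans (pow_mono ha.2 (Int.self_le_toNat n))
      rwa [zpow_natCast] at h2
    have h2 : w ⊆ (b⁻¹ * a ^ n.toNat) • w := by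
      have h3 : b⁻¹ • (b • w) ⊆ b⁻¹ • (a ^ n.toNat • w) := Set.smul_set_mono h1
      rwa [inv_smul_smul, smul_smul] at h3
    by_cases hf : Full w (b⁻¹ * a ^ n.toNat)
    · exact ⟨_, hf, h2⟩
    · refine ⟨n.toNat + 1, ?_⟩
      have h3 := hHC a ha _ (show b⁻¹ * a ^ n.toNat ∈ H from hf)
      rwa [mul_assoc, ← pow_succ] at h3
  let C : Set (G ⧸ H) := {q | ∃ g ∈ UpSet w, (g : G ⧸ H) = q}
  have hmemC : ∀ g : G, (g : G ⧸ H) ∈ C ↔ g ∈ UpSet w := by
    intro g
    constructor
    · rintro ⟨g', hg', h⟩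
      have h1 : g'⁻¹ * g ∈ H := QuotientGroup.eq.mp h
      have h2 := hCH g' hg' _ h1
      rwa [mul_inv_cancel_left] at h2
    · exact fun h => ⟨g, h, rfl⟩
  have hcomm : ∀ a b : G ⧸ H, a * b = b * a := by
    apply holder_cone C
    · rw [← QuotientGroup.mk_one, hmemC]; exact hone
    · intro a b
      induction a using QuotientGroup.induction_on with | _ a
      induction b using QuotientGroup.induction_on with | _ b
      rw [← QuotientGroup.mk_mul, hmemC, hmemC, hmemC]
      exact fun h1 h2 => UpSet.mul hP hw h1 h2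
    · intro a
      induction a using QuotientGroup.induction_on with | _ a
      rw [← QuotientGroup.mk_inv, hmemC, hmemC]
      rcases htri a with h | h | h
      · exact Or.inl h
      · right; left
        exact (QuotientGroup.eq_one_iff a).mpr h
      · exact Or.inr (Or.inr h)
    · intro g a
      induction a using QuotientGroup.induction_on with | _ a
      induction g using QuotientGroup.induction_on with | _ g
      rw [← QuotientGroup.mk_inv, ← QuotientGroup.mk_mul, ← QuotientGroup.mk_mul, hmemC, hmemC]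
      exact fun h => hconj a h g
    · intro a b
      induction a using QuotientGroup.induction_on with | _ a
      induction b using QuotientGroup.induction_on with | _ b
      rw [hmemC, hmemC]
      intro ha hb
      obtain ⟨n, hn⟩ := harch a ha b hb
      refine ⟨n, ?_⟩
      rw [← QuotientGroup.mk_inv, ← QuotientGroup.mk_pow, ← QuotientGroup.mk_mul, hmemC]
      exact hn
  have htf : ∀ (a : G ⧸ H) (n : ℕ), n ≠ 0 → a ^ n = 1 → a = 1 := by
    intro a n hn
    induction a using QuotientGroup.induction_on with | _ a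
    rw [← QuotientGroup.mk_pow, QuotientGroup.eq_one_iff, QuotientGroup.eq_one_iff]
    intro h
    by_contra hcon
    have hpow : ∀ b ∈ UpSet w, ∀ k : ℕ, b ^ (k + 1) ∈ UpSet w := by
      intro b hb k
      induction k with
      | zero => simpa using hb
      | succ k ih => rw [pow_succ]; exact UpSet.mul hP hw ih hb
    obtain ⟨k, rfl⟩ := Nat.exists_eq_succ_of_ne_zero hn
    rcases htri a with h1 | h1 | h1
    · exact h (hpow a h1 k).1
    · exact hcon h1
    · have h2 := (hpow _ h1 k).1
      rw [inv_pow] at h2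
      exact h (full_inv_iff.mp h2)
  have hfg : Group.FG G := ⟨⟨S, hS⟩⟩
  have hnt : Nontrivial (G ⧸ H) := by
    refine ⟨⟨(s : G ⧸ H), 1, ?_⟩⟩
    intro h
    rw [QuotientGroup.eq_one_iff] at h
    exact h hs
  obtain ⟨φ, hφ⟩ := exists_hom_of_comm hcomm htf
  refine ⟨φ.comp (QuotientGroup.mk' H), ?_⟩
  intro h
  apply hφ
  refine MonoidHom.ext fun q => ?_
  induction q using QuotientGroup.induction_on with | _ a
  have := DFunLike.congr_fun h a
  rw [MonoidHom.comp_apply] at this
  simpa using this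

end Pool.Agent.BB0160
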